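import Mathlib

/-!
Composition of polynomials: right cancellation, invertibility of degree one maps, approximate
roots, Engstrom's theorem on common left factors.
-/

set_option autoImplicit false

open Polynomial

namespace Pool.Agent.W2helper16.IT

variable {K : Type*} [Field K]

lemma comp_right_cancel {f g h : K[X]} (hh : 0 < h.natDegree) (H : f.comp h = g.comp h) :
    f = g := by
  have h1 : (f - g).comp h = 0 := by rw [sub_comp, H, sub_self]
  rcases comp_eq_zero_iff.1 h1 with h2 | ⟨_, h3⟩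
  · exact sub_eq_zero.1 h2
  · rw [h3, natDegree_C] at hh
    exact absurd hh (lt_irrefl _)

/-- The degree one polynomial has a two-sided inverse of degree one. -/
lemma exists_inv {l : K[X]} (hl : l.natDegree = 1) :
    ∃ m : K[X], m.natDegree = 1 ∧ l.comp m = X ∧ m.comp l = X := by
  obtain ⟨a, ha, b, rfl⟩ := natDegree_eq_one.1 hl
  refine ⟨C a⁻¹ * X + C (-(a⁻¹ * b)), natDegree_linear (inv_ne_zero ha), ?_, ?_⟩
  · simp only [add_comp, mul_comp, C_comp, X_comp]
    rw [mul_add, ← mul_assoc, ← C_mul, ← C_mul, mul_inv_cancel₀ ha, C_1, one_mul, add_assoc, ← C_add]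
    rw [show a * -(a⁻¹ * b) + b = 0 by field_simp; ring]
    simp
  · simp only [add_comp, mul_comp, C_comp, X_comp]
    rw [mul_add, ← mul_assoc, ← C_mul, ← C_mul, inv_mul_cancel₀ ha, C_1, one_mul, add_assoc, ← C_add]
    rw [show a⁻¹ * b + -(a⁻¹ * b) = 0 by ring]
    simp

lemma comp_ne_zero {f g : K[X]} (hf : f ≠ 0) (hg : 0 < g.natDegree) : f.comp g ≠ 0 := by
  intro h
  apply hf
  exact comp_right_cancel hg (by rw [h, zero_comp])

/-- The sum `x^{u-1} + x^{u-2} y + ... + y^{u-1}` for monic `x, y` of the same degree. -/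
lemma geom_top {x y : K[X]} {m : ℕ} (hx : x.Monic) (hy : y.Monic) (hxm : x.natDegree = m)
    (hym : y.natDegree = m) {u : ℕ} :
    (∑ i ∈ Finset.range u, x ^ i * y ^ (u - 1 - i)).natDegree ≤ (u - 1) * m ∧
    (∑ i ∈ Finset.range u, x ^ i * y ^ (u - 1 - i)).coeff ((u - 1) * m) = u := by
  have key : ∀ i ∈ Finset.range u, (x ^ i * y ^ (u - 1 - i)).natDegree = (u - 1) * m := by
    intro i hi
    rw [Finset.mem_range] at hi
    rw [Monic.natDegree_mul (hx.pow i) (hy.pow _), hx.natDegree_pow, hy.natDegree_pow, hxm, hym,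
      ← add_mul]
    congr 1
    omega
  refine ⟨natDegree_sum_le_of_forall_le _ _ fun i hi => (key i hi).le, ?_⟩
  rw [finsetSum_coeff]
  rw [Finset.sum_congr rfl (g := fun _ => (1 : K))]
  · simp
  · intro i hi
    have h1 : (x ^ i * y ^ (u - 1 - i)).Monic := (hx.pow i).mul (hy.pow _)
    have := h1.coeff_natDegree
    rwa [key i hi] at this

/-- Two monic polynomials of degree `m` whose `u`-th powers are very close are equal. -/
lemma approx_unique [CharZero K] {x y : K[X]} {m u : ℕ} (hx : x.Monic) (hy : y.Monic)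
    (hxm : x.natDegree = m) (hym : y.natDegree = m) (hu : 0 < u)
    (h : (x ^ u - y ^ u).degree < (((u - 1) * m : ℕ) : WithBot ℕ)) : x = y := by
  by_contra hne
  obtain ⟨h1, h2⟩ := geom_top hx hy hxm hym (u := u)
  rw [← geom_sum₂_mul] at h
  set S := ∑ i ∈ Finset.range u, x ^ i * y ^ (u - 1 - i)
  have hS : S.coeff ((u - 1) * m) ≠ 0 := by
    rw [h2]; exact_mod_cast hu.ne'
  have hSd : (((u - 1) * m : ℕ) : WithBot ℕ) ≤ S.degree := le_degree_of_ne_zero hS
  rw [degree_mul] at h
  have h3 : 0 ≤ (x - y).degree := zero_le_degree_iff.2 (sub_ne_zero.2 hne)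
  have : (((u - 1) * m : ℕ) : WithBot ℕ) ≤ S.degree + (x - y).degree :=
    le_trans hSd (le_add_of_nonneg_right h3)
  exact absurd h (not_lt.2 this)

/-- Approximate roots: existence. -/
lemma approx_exists [CharZero K] {A : K[X]} {m u : ℕ} (hu : 0 < u) (hm : 0 < m)
    (hA : A.natDegree = u * m) :
    ∃ G : K[X], G.Monic ∧ G.natDegree = m ∧
      (A - C A.leadingCoeff * G ^ u).degree < (((u - 1) * m : ℕ) : WithBot ℕ) := by
  have hA0 : A ≠ 0 := by
    rintro rfl
    rw [natDegree_zero] at hA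
    exact (Nat.mul_pos hu hm).ne hA
  have hlc : A.leadingCoeff ≠ 0 := leadingCoeff_ne_zero.2 hA0
  have key : ∀ j ≤ m, ∃ G : K[X], G.Monic ∧ G.natDegree = m ∧
      (A - C A.leadingCoeff * G ^ u).degree < ((u * m - j : ℕ) : WithBot ℕ) := by
    intro j
    induction j with
    | zero =>
      intro _
      refine ⟨X ^ m, monic_X_pow m, natDegree_X_pow m, ?_⟩
      have h1 : (A - C A.leadingCoeff * (X ^ m) ^ u).degree < A.degree := by
        apply degree_sub_lt_left
        · rw [degree_C_mul hlc, ← pow_mul, degree_X_pow, degree_eq_natDegree hA0, hA, mul_comm]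
        · exact hA0
        · rw [← pow_mul, leadingCoeff_C_mul_X_pow]
      rw [degree_eq_natDegree hA0, hA] at h1
      simpa using h1
    | succ j ih =>
      intro hj
      obtain ⟨G, hG, hGm, hd⟩ := ih (by omega)
      set c := (A - C A.leadingCoeff * G ^ u).coeff (u * m - (j + 1)) with hc
      set δ : K[X] := C (c / (u * A.leadingCoeff)) * X ^ (m - (j + 1)) with hδ
      have hδd : δ.degree < G.degree := by
        rw [degree_eq_natDegree hG.ne_zero, hGm]
        refine lt_of_le_of_lt (degree_C_mul_X_pow_le _ _) ?_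
        exact_mod_cast (by omega : m - (j + 1) < m)
      have hG' : (G + δ).Monic := hG.add_of_left hδd
      have hG'm : (G + δ).natDegree = m := by
        rw [natDegree_add_eq_left_of_degree_lt hδd, hGm]
      refine ⟨G + δ, hG', hG'm, ?_⟩
      obtain ⟨h1, h2⟩ := geom_top hG' hG hG'm hGm (u := u)
      have h3 := geom_sum₂_mul (G + δ) G u
      set S := ∑ i ∈ Finset.range u, (G + δ) ^ i * G ^ (u - 1 - i)
      rw [add_sub_cancel_left] at h3
      have h4 : A - C A.leadingCoeff * (G + δ) ^ u =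
          (A - C A.leadingCoeff * G ^ u) - C A.leadingCoeff * (S * δ) := by
        rw [h3]; ring
      have hum : m ≤ u * m := Nat.le_mul_of_pos_left m hu
      have hidx : (u - 1) * m + (m - (j + 1)) = u * m - (j + 1) := by
        obtain ⟨v, rfl⟩ : ∃ v, u = v + 1 := ⟨u - 1, by omega⟩
        simp only [Nat.add_sub_cancel]
        rw [Nat.add_mul, Nat.one_mul]
        omega
      have hSδ : (S * δ).natDegree ≤ u * m - (j + 1) := by
        refine natDegree_mul_le.trans ?_
        rw [← hidx]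
        exact Nat.add_le_add h1 (natDegree_C_mul_X_pow_le _ _)
      have hSδc : (S * δ).coeff (u * m - (j + 1)) = u * (c / (u * A.leadingCoeff)) := by
        rw [hδ, ← hidx, ← mul_assoc, coeff_mul_X_pow, mul_comm S, coeff_C_mul, h2, mul_comm]
      have hu0 : (u : K) ≠ 0 := by exact_mod_cast hu.ne'
      rw [h4]
      rw [degree_lt_iff_coeff_zero] at hd ⊢
      intro i hi
      rw [coeff_sub, coeff_C_mul]
      rcases eq_or_lt_of_le hi with h5 | h5
      · rw [← h5, hSδc, ← hc]
        field_simp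
        ring
      · rw [hd i (by omega), coeff_eq_zero_of_natDegree_lt (lt_of_le_of_lt hSδ h5)]
        ring
  obtain ⟨G, hG, hGm, hd⟩ := key m le_rfl
  refine ⟨G, hG, hGm, ?_⟩
  have : u * m - m = (u - 1) * m := by rw [Nat.sub_mul, one_mul]
  rwa [this] at hd

lemma degree_comp_lt {p B : K[X]} {n : ℕ} (hB : 0 < B.natDegree)
    (h : p.degree < (n : WithBot ℕ)) : (p.comp B).degree < ((n * B.natDegree : ℕ) : WithBot ℕ) := by
  rcases eq_or_ne p 0 with rfl | hp
  · rw [zero_comp, degree_zero]; exact WithBot.bot_lt_coe _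
  · rw [degree_eq_natDegree (comp_ne_zero hp hB), natDegree_comp]
    rw [degree_eq_natDegree hp] at h
    have h1 : p.natDegree < n := by exact_mod_cast h
    exact_mod_cast (Nat.mul_lt_mul_of_pos_right h1 hB)

/-- An element of `K[B] ∩ K[D]` is a polynomial in `W`, when `deg W = lcm (deg B, deg D)` and `W` is
in both. -/
lemma mem_adjoin_lcm {B D W A' E' : K[X]} {a e : ℕ} (hB : 0 < B.natDegree) (hD : 0 < D.natDegree)
    (ha : a * B.natDegree = e * D.natDegree) (hae : Nat.Coprime a e) (ha0 : 0 < a)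
    (hW1 : W = A'.comp B) (hW2 : W = E'.comp D)
    (hWm : W.Monic) (hWd : W.natDegree = a * B.natDegree) :
    ∀ n : ℕ, ∀ g : K[X], g.natDegree ≤ n → (∃ p : K[X], g = p.comp B) →
      (∃ q : K[X], g = q.comp D) → ∃ U : K[X], g = U.comp W := by
  intro n
  induction n using Nat.strong_induction_on with
  | _ n ih =>
    rintro g hg ⟨p, hp⟩ ⟨q, hq⟩
    rcases Nat.eq_zero_or_pos g.natDegree with h0 | h0
    · exact ⟨g, by
        rw [eq_C_of_natDegree_eq_zero h0, C_comp]⟩
    · have h1 : g.natDegree = p.natDegree * B.natDegree := by rw [hp, natDegree_comp]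
      have h2 : g.natDegree = q.natDegree * D.natDegree := by rw [hq, natDegree_comp]
      have h3 : p.natDegree * e = q.natDegree * a := by
        apply Nat.eq_of_mul_eq_mul_right hB
        calc p.natDegree * e * B.natDegree = e * (p.natDegree * B.natDegree) := by ring
          _ = e * (q.natDegree * D.natDegree) := by rw [← h1, h2]
          _ = q.natDegree * (e * D.natDegree) := by ring
          _ = q.natDegree * a * B.natDegree := by rw [← ha]; ring
      obtain ⟨k, hk⟩ : a ∣ p.natDegree := hae.dvd_of_dvd_mul_right ⟨q.natDegree, by rw [h3]; ring⟩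
      have hg0 : g ≠ 0 := by rintro rfl; simp at h0
      have hlc : g.leadingCoeff ≠ 0 := leadingCoeff_ne_zero.2 hg0
      have hdW : (C g.leadingCoeff * W ^ k).degree = g.degree := by
        rw [degree_C_mul hlc, degree_eq_natDegree (hWm.pow k).ne_zero, hWm.natDegree_pow, hWd,
          degree_eq_natDegree hg0, h1, hk]
        congr 1
        ring
      have h4 : (g - C g.leadingCoeff * W ^ k).degree < g.degree := by
        apply degree_sub_lt_left hdW.symm hg0
        rw [leadingCoeff_mul, leadingCoeff_C, (hWm.pow k).leadingCoeff, mul_one]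
      have h5 : (g - C g.leadingCoeff * W ^ k).natDegree < g.natDegree := by
        rcases eq_or_ne (g - C g.leadingCoeff * W ^ k) 0 with h | h
        · rw [h, natDegree_zero]; exact h0
        · exact natDegree_lt_natDegree h h4
      obtain ⟨U, hU⟩ := ih _ (lt_of_lt_of_le h5 hg) (g - C g.leadingCoeff * W ^ k) le_rfl
        ⟨p - C g.leadingCoeff * A' ^ k, by
          rw [sub_comp, mul_comp, C_comp, pow_comp, ← hW1, ← hp]⟩
        ⟨q - C g.leadingCoeff * E' ^ k, by
          rw [sub_comp, mul_comp, C_comp, pow_comp, ← hW2, ← hq]⟩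
      refine ⟨U + C g.leadingCoeff * X ^ k, ?_⟩
      rw [add_comp, mul_comp, C_comp, pow_comp, X_comp, ← hU]
      ring

/-- Engstrom: if `A ∘ B = C ∘ D`, then `A` and `C` have a common left factor whose degree is
`gcd (deg A, deg C)`. -/
theorem engstrom [CharZero K] [IsAlgClosed K] {A B E D : K[X]} (hA : 0 < A.natDegree)
    (hB : 0 < B.natDegree) (hE : 0 < E.natDegree) (hD : 0 < D.natDegree)
    (H : A.comp B = E.comp D) :
    ∃ U A' E' : K[X], A = U.comp A' ∧ E = U.comp E' ∧ A'.comp B = E'.comp D ∧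
      U.natDegree = Nat.gcd A.natDegree E.natDegree := by
  set u := Nat.gcd A.natDegree E.natDegree with hu
  have hu0 : 0 < u := Nat.gcd_pos_of_pos_left _ hA
  obtain ⟨a, ha⟩ : u ∣ A.natDegree := Nat.gcd_dvd_left _ _
  obtain ⟨e, he⟩ : u ∣ E.natDegree := Nat.gcd_dvd_right _ _
  have ha0 : 0 < a := by
    rcases Nat.eq_zero_or_pos a with h | h
    · rw [h, mul_zero] at ha; omega
    · exact h
  have he0 : 0 < e := by
    rcases Nat.eq_zero_or_pos e with h | h
    · rw [h, mul_zero] at he; omega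
    · exact h
  have hcop : Nat.Coprime a e := by
    have h1 : u * Nat.gcd a e = u * 1 := by
      rw [← Nat.gcd_mul_left, ← ha, ← he, mul_one]
    exact Nat.eq_of_mul_eq_mul_left hu0 h1
  have hdeg : A.natDegree * B.natDegree = E.natDegree * D.natDegree := by
    rw [← natDegree_comp, ← natDegree_comp, H]
  have hdeg' : a * B.natDegree = e * D.natDegree := by
    rw [ha, he, mul_assoc, mul_assoc] at hdeg
    exact Nat.eq_of_mul_eq_mul_left hu0 hdeg
  obtain ⟨A1, hA1, hA1m, hA1d⟩ := approx_exists hu0 ha0 ha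
  obtain ⟨E1, hE1, hE1m, hE1d⟩ := approx_exists hu0 he0 he
  have hBl : B.leadingCoeff ≠ 0 := leadingCoeff_ne_zero.2 (by rintro rfl; simp at hB)
  have hDl : D.leadingCoeff ≠ 0 := leadingCoeff_ne_zero.2 (by rintro rfl; simp at hD)
  set L := a * B.natDegree with hL
  have hL0 : 0 < L := Nat.mul_pos ha0 hB
  set f := A.comp B with hf
  have hf0 : f ≠ 0 := comp_ne_zero (by rintro rfl; simp at hA) hB
  have hlcf : f.leadingCoeff ≠ 0 := leadingCoeff_ne_zero.2 hf0
  -- the common approximate root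
  have main : ∀ (A B A1 : K[X]) (a : ℕ), 0 < B.natDegree → A.natDegree = u * a → A1.Monic →
      A1.natDegree = a → f = A.comp B → a * B.natDegree = L →
      (A - C A.leadingCoeff * A1 ^ u).degree < (((u - 1) * a : ℕ) : WithBot ℕ) →
      ((C (B.leadingCoeff ^ a)⁻¹ * A1).comp B).Monic ∧
      ((C (B.leadingCoeff ^ a)⁻¹ * A1).comp B).natDegree = L ∧
      (f - C f.leadingCoeff * ((C (B.leadingCoeff ^ a)⁻¹ * A1).comp B) ^ u).degree <
        (((u - 1) * L : ℕ) : WithBot ℕ) := by
    intro A B A1 a hB ha hA1 hA1m hfe haL hA1d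
    have hBl : B.leadingCoeff ≠ 0 := leadingCoeff_ne_zero.2 (by rintro rfl; simp at hB)
    have hBa : B.leadingCoeff ^ a ≠ 0 := pow_ne_zero _ hBl
    refine ⟨?_, ?_, ?_⟩
    · unfold Monic
      rw [leadingCoeff_comp hB.ne', leadingCoeff_mul, leadingCoeff_C, hA1.leadingCoeff, mul_one,
        natDegree_C_mul (inv_ne_zero hBa), hA1m, inv_mul_cancel₀ hBa]
    · rw [natDegree_comp, natDegree_C_mul (inv_ne_zero hBa), hA1m, haL]
    · have h1 := degree_comp_lt hB hA1d
      have h2 : (u - 1) * a * B.natDegree = (u - 1) * L := by rw [mul_assoc, haL]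
      rw [h2] at h1
      have h3 : f.leadingCoeff = A.leadingCoeff * (B.leadingCoeff ^ a) ^ u := by
        rw [hfe, leadingCoeff_comp hB.ne', ha, ← pow_mul, mul_comm u a]
      have h4 : (A - C A.leadingCoeff * A1 ^ u).comp B =
          f - C f.leadingCoeff * ((C (B.leadingCoeff ^ a)⁻¹ * A1).comp B) ^ u := by
        rw [sub_comp, mul_comp, C_comp, pow_comp, ← hfe, mul_comp, C_comp, mul_pow, ← C_pow,
          ← mul_assoc, ← C_mul, h3, inv_pow, mul_assoc A.leadingCoeff,
          mul_inv_cancel₀ (pow_ne_zero _ hBa), mul_one]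
      rwa [h4] at h1
  obtain ⟨m1, m2, m3⟩ := main A B A1 a hB ha hA1 hA1m rfl rfl hA1d
  obtain ⟨n1, n2, n3⟩ := main E D E1 e hD he hE1 hE1m H hdeg'.symm hE1d
  set W1 := (C (B.leadingCoeff ^ a)⁻¹ * A1).comp B with hW1
  set W2 := (C (D.leadingCoeff ^ e)⁻¹ * E1).comp D with hW2
  have hWW : W1 = W2 := by
    apply approx_unique m1 n1 m2 n2 hu0
    have h1 : C f.leadingCoeff * (W1 ^ u - W2 ^ u) =
        (f - C f.leadingCoeff * W2 ^ u) - (f - C f.leadingCoeff * W1 ^ u) := by ring
    have h2 : (C f.leadingCoeff * (W1 ^ u - W2 ^ u)).degree < (((u - 1) * L : ℕ) : WithBot ℕ) := by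
      rw [h1]
      exact lt_of_le_of_lt (degree_sub_le _ _) (max_lt n3 m3)
    rwa [degree_C_mul hlcf] at h2
  obtain ⟨U, hU⟩ := mem_adjoin_lcm hB hD hdeg' hcop ha0 hW1 (hWW.trans hW2) m1 m2 f.natDegree f le_rfl
    ⟨A, rfl⟩ ⟨E, H⟩
  have hUd : U.natDegree = u := by
    have h1 : f.natDegree = U.natDegree * L := by
      conv_lhs => rw [hU]
      rw [natDegree_comp, m2]
    have h2 : f.natDegree = u * L := by rw [hf, natDegree_comp, ha, hL, mul_assoc]
    exact Nat.eq_of_mul_eq_mul_right hL0 (h1.symm.trans h2)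
  refine ⟨U, C (B.leadingCoeff ^ a)⁻¹ * A1, C (D.leadingCoeff ^ e)⁻¹ * E1, ?_, ?_, ?_, hUd⟩
  · apply comp_right_cancel hB
    rw [comp_assoc, ← hW1, ← hU]
  · apply comp_right_cancel hD
    rw [comp_assoc, ← hW2, ← H, ← hWW, ← hU]
  · rw [← hW1, ← hW2, hWW]

/-- Left factors of equal degree agree up to an invertible map. -/
theorem left_cancel [CharZero K] [IsAlgClosed K] {A B E D : K[X]} (hA : 0 < A.natDegree)
    (hB : 0 < B.natDegree) (hBD : B.natDegree = D.natDegree) (H : A.comp B = E.comp D) :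
    ∃ l : K[X], l.natDegree = 1 ∧ D = l.comp B := by
  have hdeg : A.natDegree = E.natDegree := by
    have h1 : A.natDegree * B.natDegree = E.natDegree * D.natDegree := by
      rw [← natDegree_comp, ← natDegree_comp, H]
    rw [← hBD] at h1
    exact Nat.eq_of_mul_eq_mul_right hB h1
  obtain ⟨U, A', E', h1, h2, h3, h4⟩ := engstrom hA hB (hdeg ▸ hA) (hBD ▸ hB) H
  rw [← hdeg, Nat.gcd_self] at h4
  have hA' : A'.natDegree = 1 := by
    have h5 : A.natDegree = U.natDegree * A'.natDegree := by rw [← natDegree_comp, ← h1]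
    rw [h4] at h5
    exact Nat.eq_of_mul_eq_mul_left hA (by rw [mul_one]; exact h5.symm)
  have hE' : E'.natDegree = 1 := by
    have h5 : E.natDegree = U.natDegree * E'.natDegree := by rw [← natDegree_comp, ← h2]
    rw [h4, ← hdeg] at h5
    exact Nat.eq_of_mul_eq_mul_left hA (by rw [mul_one]; exact h5.symm)
  obtain ⟨m, hm1, hm2, hm3⟩ := exists_inv hE'
  refine ⟨m.comp A', by rw [natDegree_comp, hm1, hA'], ?_⟩
  rw [comp_assoc, h3, ← comp_assoc, hm3, X_comp]

end Pool.Agent.W2helper16.IT
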