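import Pool.Agent.W2helper16.IT.Fibre

/-!
Critical values of `π` when `F ∘ π = π ∘ G` with coprime degrees, and polynomials of Chebyshev type.
-/

set_option autoImplicit false

open Polynomial

namespace Pool.Agent.W2helper16.IT

variable {K : Type*} [Field K]

/-- `F` is of Chebyshev type with respect to the two-element set `V`. -/
def CT (F : K[X]) (V : Finset K) : Prop :=
  V.card = 2 ∧ ∀ y, y ∈ V ↔ F.eval y ∈ V ∧ Odd (ram F y)

lemma count_struct [IsAlgClosed K] [CharZero K] {F : K[X]} (hF : 2 ≤ F.natDegree) {V : Finset K}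
    (hV : ∀ y, F.eval y ∈ V → y ∉ V → 2 ≤ ram F y) : V.card ≤ 2 ∧ (V.card = 2 → CT F V) := by
  classical
  have hF0 : 0 < F.natDegree := by omega
  have h1 := sum_pre hF0 V
  have h2 := sum_ram_sub_one (f := F) (pre F V)
  have hle : ∀ y ∈ pre F V, ram F y ≤ 2 * (ram F y - 1) + if y ∈ V then 1 else 0 := by
    intro y hy
    have h4 := ram_pos hF0 y
    split_ifs with h5
    · omega
    · have := hV y ((mem_pre hF0).1 hy) h5
      omega
  have h3 := Finset.sum_le_sum hle
  have h6 : ∑ y ∈ pre F V, (if y ∈ V then 1 else 0) = (pre F V ∩ V).card := by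
    rw [Finset.sum_ite_mem, Finset.sum_const, smul_eq_mul, mul_one]
  have h7 : (pre F V ∩ V).card ≤ V.card := Finset.card_le_card Finset.inter_subset_right
  have h3' : ∑ y ∈ pre F V, (2 * (ram F y - 1) + if y ∈ V then 1 else 0) =
      2 * ∑ y ∈ pre F V, (ram F y - 1) + (pre F V ∩ V).card := by
    rw [Finset.sum_add_distrib, ← Finset.mul_sum, h6]
  constructor
  · rw [h3', h1] at h3
    obtain ⟨e, he⟩ : ∃ e, F.natDegree = e + 1 := ⟨F.natDegree - 1, by omega⟩
    rw [he] at h3 h2 hF
    have h8 : V.card * e ≤ 2 * e := by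
      have : V.card * (e + 1) = V.card * e + V.card := by ring
      omega
    exact Nat.le_of_mul_le_mul_right h8 (by omega)
  · intro hV2
    have h9 : ∑ y ∈ pre F V, ram F y =
        ∑ y ∈ pre F V, (2 * (ram F y - 1) + if y ∈ V then 1 else 0) := by
      apply le_antisymm h3
      rw [h3', h1, hV2]
      omega
    have h10 := (Finset.sum_eq_sum_iff_of_le hle).1 h9
    have h11 : (pre F V ∩ V).card = 2 := by
      rw [h3', h1, hV2] at h9
      omega
    have h12 : pre F V ∩ V = V := Finset.eq_of_subset_of_card_le Finset.inter_subset_right (by omega)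
    refine ⟨hV2, fun y => ⟨fun hy => ?_, fun hy => ?_⟩⟩
    · have hy' : y ∈ pre F V := by
        rw [← h12] at hy
        exact (Finset.mem_inter.1 hy).1
      refine ⟨(mem_pre hF0).1 hy', ?_⟩
      have h13 := h10 y hy'
      rw [if_pos hy] at h13
      have : ram F y = 1 := by omega
      rw [this]; exact odd_one
    · by_contra hyV
      have h13 := h10 y ((mem_pre hF0).2 hy.1)
      rw [if_neg hyV] at h13
      have h14 := ram_pos hF0 y
      have : ram F y = 2 := by omega
      rw [this] at hy
      exact absurd hy.2 (by decide)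

/-- The critical values. -/
noncomputable def crit (π : K[X]) : Finset K :=
  letI := Classical.decEq K
  (derivative π).roots.toFinset.image (fun y => π.eval y)

lemma derivative_ne [CharZero K] {π : K[X]} (hπ : 0 < π.natDegree) : derivative π ≠ 0 := by
  intro h
  have := derivative_eq_zero.1 h
  omega

lemma mem_crit [CharZero K] {π : K[X]} (hπ : 0 < π.natDegree) {v : K} :
    v ∈ crit π ↔ ∃ c, π.eval c = v ∧ 2 ≤ ram π c := by
  classical
  unfold crit
  rw [Finset.mem_image]
  constructor
  · rintro ⟨c, hc, rfl⟩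
    refine ⟨c, rfl, ?_⟩
    rw [Multiset.mem_toFinset, mem_roots (derivative_ne hπ), ← rootMultiplicity_pos (derivative_ne hπ),
      ram_sub_one] at hc
    omega
  · rintro ⟨c, hc, h2⟩
    refine ⟨c, ?_, hc⟩
    rw [Multiset.mem_toFinset, mem_roots (derivative_ne hπ), ← rootMultiplicity_pos (derivative_ne hπ),
      ram_sub_one]
    omega

/-- The alternative: at most one critical value or Chebyshev type. -/
theorem crit_alternative [IsAlgClosed K] [CharZero K] {F π G : K[X]} (hπ : 0 < π.natDegree)
    (hF : 2 ≤ F.natDegree) (hcop : Nat.Coprime π.natDegree F.natDegree)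
    (H : F.comp π = π.comp G) : (crit π).card ≤ 1 ∨ CT F (crit π) := by
  have hF0 : 0 < F.natDegree := by omega
  have hG0 : 0 < G.natDegree := by
    have h1 : F.natDegree * π.natDegree = π.natDegree * G.natDegree := by
      rw [← natDegree_comp, ← natDegree_comp, H]
    rcases Nat.eq_zero_or_pos G.natDegree with h | h
    · rw [h, mul_zero] at h1
      have := Nat.mul_pos hF0 hπ
      omega
    · exact h
  have key : ∀ y, F.eval y ∈ crit π → y ∉ crit π → 2 ≤ ram F y := by
    intro y hy hyn
    obtain ⟨c, hc, hc2⟩ := (mem_crit hπ).1 hy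
    obtain ⟨t, ht1, ht2⟩ := fibre_param hπ hF0 hcop H hc
    have h1 : ram (F.comp π) t = ram F y * ram π t := by rw [ram_comp hF0 hπ, ht1]
    have h2 : ram (π.comp G) t = ram π c * ram G t := by rw [ram_comp hπ hG0, ht2]
    have h3 : ram π t = 1 := by
      have h4 : ¬ 2 ≤ ram π t := fun h => hyn ((mem_crit hπ).2 ⟨t, ht1, h⟩)
      have h5 := ram_pos hπ t
      omega
    rw [H, h2, h3, mul_one] at h1
    rw [← h1]
    calc 2 = 2 * 1 := rfl
      _ ≤ ram π c * ram G t := Nat.mul_le_mul hc2 (ram_pos hG0 t)
  obtain ⟨h1, h2⟩ := count_struct hF key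
  rcases Nat.lt_or_ge (crit π).card 2 with h | h
  · left; omega
  · right; exact h2 (by omega)

/-- A polynomial with at most one critical value is a power up to affine maps. -/
theorem one_crit [IsAlgClosed K] [CharZero K] {π : K[X]} (hπ : 0 < π.natDegree)
    (h : (crit π).card ≤ 1) : ∃ v z c : K, c ≠ 0 ∧
      π = C v + C c * (X - C z) ^ π.natDegree := by
  classical
  obtain ⟨v, hv⟩ := Finset.card_le_one_iff_subset_singleton.1 h
  have hv' : ∀ c, 2 ≤ ram π c → π.eval c = v := fun c hc =>
    Finset.mem_singleton.1 (hv ((mem_crit hπ).2 ⟨c, rfl, hc⟩))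
  have h1 := sum_fib hπ v
  have h2 : ∑ y ∈ fib π v, (ram π y - 1) = π.natDegree - 1 := by
    simp only [← ram_sub_one]
    have h3 : ∑ y ∈ fib π v, (derivative π).rootMultiplicity y =
        Multiset.card (derivative π).roots := by
      simp only [← count_roots]
      apply Multiset.sum_count_eq_card
      intro c hc
      rw [mem_fib hπ]
      apply hv'
      rw [mem_roots (derivative_ne hπ), ← rootMultiplicity_pos (derivative_ne hπ), ram_sub_one] at hc
      omega
    rw [h3, ← (IsAlgClosed.splits (derivative π)).natDegree_eq_card_roots, natDegree_derivative]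
  have h4 : ∑ y ∈ fib π v, ram π y = ∑ y ∈ fib π v, (ram π y - 1) + (fib π v).card := by
    rw [Finset.card_eq_sum_ones, ← Finset.sum_add_distrib]
    apply Finset.sum_congr rfl
    intro y _
    have := ram_pos hπ y
    omega
  rw [h1, h2] at h4
  have h5 : (fib π v).card = 1 := by omega
  obtain ⟨z, hz⟩ := Finset.card_eq_one.1 h5
  have hz1 : π.eval z = v := (mem_fib hπ).1 (by rw [hz]; exact Finset.mem_singleton_self z)
  rw [hz, Finset.sum_singleton] at h1
  have h6 : (X - C z) ^ π.natDegree ∣ π - C v := by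
    have := pow_rootMultiplicity_dvd (π - C (π.eval z)) z
    rw [hz1] at this
    unfold ram at h1
    rw [hz1] at h1
    rwa [h1] at this
  obtain ⟨q, hq⟩ := h6
  have hq0 : q ≠ 0 := by
    rintro rfl
    rw [mul_zero] at hq
    exact sub_C_ne hπ v hq
  have h7 : q.natDegree = 0 := by
    have h8 : (π - C v).natDegree = π.natDegree + q.natDegree := by
      conv_lhs => rw [hq]
      rw [natDegree_mul (pow_ne_zero _ (X_sub_C_ne_zero z)) hq0, natDegree_pow, natDegree_X_sub_C, mul_one]
    rw [natDegree_sub_C] at h8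
    omega
  rw [eq_C_of_natDegree_eq_zero h7] at hq hq0
  refine ⟨v, z, q.coeff 0, fun h => hq0 (by rw [h, C_0]), ?_⟩
  rw [mul_comm, ← hq]
  ring

end Pool.Agent.W2helper16.IT
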