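import Pool.Agent.W2helper16.IT.CType

/-!
Polynomials of Chebyshev type: composition, pull back, uniqueness.
-/

set_option autoImplicit false

open Polynomial

namespace Pool.Agent.W2helper16.IT

variable {K : Type*} [Field K]

lemma CT.comp {F G : K[X]} {V : Finset K} (hF : 0 < F.natDegree) (hG : 0 < G.natDegree)
    (h1 : CT F V) (h2 : CT G V) : CT (F.comp G) V := by
  refine ⟨h1.1, fun y => ?_⟩
  rw [eval_comp, ram_comp hF hG, Nat.odd_mul, h2.2 y, h1.2 (G.eval y)]
  tauto

lemma CT.pull [IsAlgClosed K] [CharZero K] {F π G : K[X]} (hπ : 0 < π.natDegree)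
    (hF : 2 ≤ F.natDegree) (H : F.comp π = π.comp G) {V : Finset K} (h : CT F V) :
    ∃ O, CT G O := by
  classical
  have hF0 : 0 < F.natDegree := by omega
  have hGd : G.natDegree = F.natDegree := by
    have h1 : F.natDegree * π.natDegree = π.natDegree * G.natDegree := by
      rw [← natDegree_comp, ← natDegree_comp, H]
    rw [mul_comm] at h1
    exact (Nat.eq_of_mul_eq_mul_left hπ h1).symm
  have hG0 : 0 < G.natDegree := by omega
  set O := (pre π V).filter (fun t => Odd (ram π t)) with hO
  have hmem : ∀ t, t ∈ O ↔ π.eval t ∈ V ∧ Odd (ram π t) := by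
    intro t
    rw [hO, Finset.mem_filter, mem_pre hπ]
  have key : ∀ t, t ∈ O ↔ G.eval t ∈ O ∧ Odd (ram G t) := by
    intro t
    rw [hmem t, hmem (G.eval t), and_assoc, ← Nat.odd_mul, ← ram_comp hπ hG0, ← eval_comp, ← H,
      eval_comp, ram_comp hF0 hπ, Nat.odd_mul, h.2 (π.eval t), and_assoc]
  refine ⟨O, ?_, key⟩
  have h1 := odd_count hπ V O (fun y hy1 hy2 => (hmem y).2 ⟨hy1, hy2⟩)
  rw [h.1] at h1
  have h2 := odd_count hG0 O O (fun y hy1 hy2 => (key y).2 ⟨hy1, hy2⟩)
  rw [hGd] at h2
  obtain ⟨e, he⟩ : ∃ e, F.natDegree = e + 1 := ⟨F.natDegree - 1, by omega⟩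
  rw [he] at h2 hF
  have h3 : O.card * e ≤ 2 * e := by
    have : O.card * (e + 1) = O.card * e + O.card := by ring
    omega
  have h4 : O.card ≤ 2 := Nat.le_of_mul_le_mul_right h3 (by omega)
  omega

/-- Conjugation. -/
lemma CT.conj {R l m : K[X]} (hR : 0 < R.natDegree) (hl : l.natDegree = 1) (hm : m.natDegree = 1)
    (hml : m.comp l = X) {O V : Finset K} (h : CT R O) (hV : V.card = 2)
    (hVO : ∀ t, t ∈ V ↔ m.eval t ∈ O) (ram1 : ∀ f : K[X], f.natDegree = 1 → ∀ y, ram f y = 1) :
    CT (l.comp (R.comp m)) V := by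
  have hRm : 0 < (R.comp m).natDegree := by rw [natDegree_comp, hm]; omega
  refine ⟨hV, fun y => ?_⟩
  rw [ram_comp (by omega) hRm, ram_comp hR (by omega), ram1 l hl, ram1 m hm, one_mul, mul_one,
    hVO y, h.2, hVO]
  have h1 : m.eval ((l.comp (R.comp m)).eval y) = R.eval (m.eval y) := by
    rw [← eval_comp, ← comp_assoc, hml, X_comp, eval_comp]
  rw [h1]

lemma ram_one {f : K[X]} (hf : f.natDegree = 1) (y : K) : ram f y = 1 := by
  have h1 := ram_pos (f := f) (by omega) y
  have h2 : ram f y ≤ 1 := by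
    unfold ram
    calc (f - C (f.eval y)).rootMultiplicity y ≤ (f - C (f.eval y)).natDegree := by
          classical
          rw [← count_roots]
          exact (Multiset.count_le_card _ _).trans (card_roots' _)
      _ = 1 := by rw [natDegree_sub_C, hf]
  omega

/-- A polynomial all of whose root multiplicities are divisible by `a` is an `a`-th power. -/
lemma exists_pow [IsAlgClosed K] {p : K[X]} {a : ℕ} (ha : 0 < a)
    (h : ∀ y, a ∣ p.rootMultiplicity y) : ∃ g : K[X], p = g ^ a := by
  classical
  set s : Multiset K := ∑ y ∈ p.roots.toFinset, (p.roots.count y / a) • {y} with hs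
  have h1 : p.roots = a • s := by
    conv_lhs => rw [← Multiset.toFinset_sum_count_nsmul_eq p.roots]
    rw [hs, Finset.smul_sum]
    apply Finset.sum_congr rfl
    intro y _
    rw [← mul_nsmul', Nat.mul_div_cancel']
    rw [count_roots]
    exact h y
  obtain ⟨ρ, hρ⟩ := IsAlgClosed.exists_pow_nat_eq p.leadingCoeff ha
  refine ⟨C ρ * (s.map fun y => X - C y).prod, ?_⟩
  conv_lhs => rw [(IsAlgClosed.splits p).eq_prod_roots]
  rw [h1, Multiset.map_nsmul, Multiset.prod_nsmul, mul_pow, ← C_pow, hρ]

/-- The quadratic polynomial with roots `v₁, v₂`. -/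
noncomputable def quad (v w : K) : K[X] := (X - C v) * (X - C w)

lemma quad_ne (v w : K) : quad v w ≠ 0 := mul_ne_zero (X_sub_C_ne_zero _) (X_sub_C_ne_zero _)

lemma rootMultiplicity_quad {v w : K} (hvw : v ≠ w) (y : K) :
    (quad v w).rootMultiplicity y = 1 ∧ (y = v ∨ y = w) ∨
      (quad v w).rootMultiplicity y = 0 ∧ ¬ (y = v ∨ y = w) := by
  classical
  unfold quad
  rw [rootMultiplicity_mul (quad_ne v w), rootMultiplicity_X_sub_C, rootMultiplicity_X_sub_C]
  by_cases h1 : y = v
  · have h2 : y ≠ w := fun h => hvw (h1.symm.trans h)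
    simp [h1, hvw]
  · by_cases h2 : y = w
    · simp [h2, hvw.symm]
    · simp [h1, h2]

lemma CT.factor [IsAlgClosed K] {F : K[X]} (hF : 0 < F.natDegree) {v w : K} (hvw : v ≠ w)
    {V : Finset K} (hV : ∀ y, y ∈ V ↔ y = v ∨ y = w) (h : CT F V) :
    ∃ g : K[X], (quad v w).comp F = quad v w * g ^ 2 := by
  set p := (quad v w).comp F with hp
  have hp0 : p ≠ 0 := comp_ne_zero (quad_ne v w) hF
  have hodd : ∀ y, Odd (p.rootMultiplicity y) ↔ (y = v ∨ y = w) := by
    intro y
    rw [hp, rootMultiplicity_comp' (quad_ne v w) hF, ← hV, h.2, hV]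
    rcases rootMultiplicity_quad hvw (F.eval y) with ⟨h1, h2⟩ | ⟨h1, h2⟩
    · rw [h1, one_mul]; tauto
    · rw [h1, zero_mul]
      constructor
      · intro h3; exact absurd h3 (by decide)
      · intro h3; exact absurd h3.1 h2
  have hv : p.IsRoot v := by
    rw [← rootMultiplicity_pos hp0]
    exact ((hodd v).2 (Or.inl rfl)).pos
  have hw : p.IsRoot w := by
    rw [← rootMultiplicity_pos hp0]
    exact ((hodd w).2 (Or.inr rfl)).pos
  have hdvd : quad v w ∣ p := by
    unfold quad
    apply IsCoprime.mul_dvd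
    · exact isCoprime_X_sub_C_of_isUnit_sub (sub_ne_zero.2 hvw).isUnit
    · exact dvd_iff_isRoot.2 hv
    · exact dvd_iff_isRoot.2 hw
  obtain ⟨r, hr⟩ := hdvd
  have hr0 : quad v w * r ≠ 0 := by rw [← hr]; exact hp0
  obtain ⟨g, hg⟩ := exists_pow (p := r) (a := 2) (by norm_num) (by
    intro y
    have h1 := hodd y
    rw [hr, rootMultiplicity_mul hr0] at h1
    rw [← even_iff_two_dvd]
    rcases rootMultiplicity_quad hvw y with ⟨h2, h3⟩ | ⟨h2, h3⟩
    · rw [h2] at h1
      have h4 := h1.2 h3
      rw [Nat.odd_add] at h4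
      exact h4.1 odd_one
    · rw [h2, zero_add] at h1
      rw [← Nat.not_odd_iff_even]
      exact fun h4 => h3 (h1.1 h4))
  exact ⟨g, by rw [hr, hg]⟩

/-- The operator `E ↦ q' E' + 2 q E''`. -/
noncomputable def op (v w : K) (E : K[X]) : K[X] :=
  derivative (quad v w) * derivative E + 2 * (quad v w * derivative (derivative E))

lemma quad_eq (v w : K) : quad v w = X ^ 2 - C (v + w) * X + C (v * w) := by
  unfold quad
  rw [C_add, C_mul]
  ring

lemma derivative_quad (v w : K) : derivative (quad v w) = 2 * X - C (v + w) := by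
  rw [quad_eq]
  simp [one_add_one_eq_two]
  rfl

lemma coeff_op [CharZero K] (v w : K) {E : K[X]} {e : ℕ} (hE : E.natDegree ≤ e) :
    (op v w E).coeff e = 2 * (e : K) ^ 2 * E.coeff e := by
  have h1 : E.coeff (e + 1) = 0 := coeff_eq_zero_of_natDegree_lt (by omega)
  have h2 : E.coeff (e + 1 + 1) = 0 := coeff_eq_zero_of_natDegree_lt (by omega)
  have h3 : op v w E = 2 * (X * derivative E) - C (v + w) * derivative E +
      2 * (X * (X * derivative (derivative E)) - C (v + w) * (X * derivative (derivative E)) +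
        C (v * w) * derivative (derivative E)) := by
    unfold op
    rw [derivative_quad, quad_eq]
    ring
  rw [h3]
  have h4 : (2 : K[X]) = C 2 := rfl
  rcases e with _ | _ | e
  · simp only [h4, coeff_add, coeff_sub, coeff_derivative, mul_coeff_zero, coeff_X_zero]
    simp only [zero_add] at h1 h2
    simp [h1, h2]
  · simp only [h4, coeff_add, coeff_sub, coeff_C_mul, coeff_X_mul, coeff_derivative]
    simp only [zero_add] at h1 h2 ⊢
    simp [h1, h2, coeff_derivative]
  · simp only [h4, coeff_add, coeff_sub, coeff_C_mul, coeff_X_mul, coeff_derivative]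
    rw [h1, h2]
    push_cast
    ring

lemma op_sub (v w : K) (E F : K[X]) : op v w (E - F) = op v w E - op v w F := by
  unfold op
  simp only [derivative_sub]
  ring

lemma op_C_mul (v w c : K) (E : K[X]) : op v w (C c * E) = C c * op v w E := by
  unfold op
  simp only [derivative_C_mul]
  ring

lemma op_C (v w c : K) : op v w (C c) = 0 := by
  unfold op
  simp

lemma CT.ode [IsAlgClosed K] [CharZero K] {F : K[X]} (hF : 0 < F.natDegree) {v w : K} (hvw : v ≠ w)
    {V : Finset K} (hV : ∀ y, y ∈ V ↔ y = v ∨ y = w) (h : CT F V) :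
    op v w F = C ((F.natDegree : K) ^ 2) * (2 * F - C (v + w)) := by
  obtain ⟨g, hg⟩ := h.factor hF hvw hV
  have hF0 := natDegree_pos_ne hF
  have hF'0 := derivative_ne hF
  have hp0 : (quad v w).comp F ≠ 0 := comp_ne_zero (quad_ne v w) hF
  have hg0 : g ≠ 0 := by
    rintro rfl
    rw [hg] at hp0
    simp at hp0
  -- degree of `g`
  have hqd : (quad v w).natDegree = 2 := by
    unfold quad
    rw [natDegree_mul (X_sub_C_ne_zero _) (X_sub_C_ne_zero _), natDegree_X_sub_C, natDegree_X_sub_C]
  have hgd : g.natDegree = F.natDegree - 1 := by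
    have h1 : ((quad v w).comp F).natDegree = 2 + 2 * g.natDegree := by
      rw [hg, natDegree_mul (quad_ne v w) (pow_ne_zero _ hg0), hqd, natDegree_pow]
    rw [natDegree_comp, hqd] at h1
    omega
  -- `g` divides `F'`
  have hd1 : (derivative (quad v w)).comp F * derivative F =
      g * (derivative (quad v w) * g + 2 * (quad v w * derivative g)) := by
    have h1 := congrArg derivative hg
    rw [derivative_comp, derivative_mul, derivative_pow] at h1
    rw [mul_comm, h1]
    simp only [Nat.cast_ofNat]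
    rw [show (C 2 : K[X]) = 2 from rfl]
    ring
  have hdisc : ((derivative (quad v w)).comp F) ^ 2 - 4 * (quad v w).comp F = C ((v - w) ^ 2) := by
    rw [derivative_quad, quad_eq]
    simp only [sub_comp, mul_comp, add_comp, pow_comp, X_comp, C_comp, ofNat_comp, C_add, C_mul, C_pow,
      C_sub]
    ring
  have hdvd : g ∣ derivative F := by
    have h1 : C ((v - w) ^ 2) * derivative F = g * ((derivative (quad v w)).comp F *
        (derivative (quad v w) * g + 2 * (quad v w * derivative g)) -
          4 * (quad v w * g * derivative F)) := by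
      rw [← hdisc, sub_mul, pow_two, mul_assoc, hd1, hg]
      ring
    have h2 : g ∣ C ((v - w) ^ 2) * derivative F := ⟨_, h1⟩
    have h3 : IsUnit (C ((v - w) ^ 2) : K[X]) :=
      isUnit_C.2 (pow_ne_zero _ (sub_ne_zero.2 hvw)).isUnit
    exact (h3.dvd_mul_left).1 h2
  obtain ⟨k, hk⟩ := hdvd
  have hk0 : k ≠ 0 := by
    rintro rfl
    rw [mul_zero] at hk
    exact hF'0 hk
  have hkd : k.natDegree = 0 := by
    have h1 : (derivative F).natDegree = g.natDegree + k.natDegree := by
      rw [hk, natDegree_mul hg0 hk0]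
    rw [natDegree_derivative, hgd] at h1
    omega
  rw [eq_C_of_natDegree_eq_zero hkd] at hk
  set κ := k.coeff 0
  -- `q F'^2 = κ^2 q(F)`
  have h1 : quad v w * derivative F ^ 2 = C (κ ^ 2) * (quad v w).comp F := by
    rw [hk, hg, C_pow]; ring
  have h2 : op v w F = C (κ ^ 2) * (2 * F - C (v + w)) := by
    have h3 := congrArg derivative h1
    rw [derivative_mul, derivative_pow, derivative_C_mul, derivative_comp] at h3
    have h4 : derivative F * op v w F = derivative F * (C (κ ^ 2) * (2 * F - C (v + w))) := by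
      have h5 : (derivative (quad v w)).comp F = 2 * F - C (v + w) := by
        rw [derivative_quad]; simp
      rw [h5] at h3
      unfold op
      simp only [Nat.cast_ofNat] at h3
      rw [show (C 2 : K[X]) = 2 from rfl] at h3
      linear_combination h3
    exact mul_left_cancel₀ hF'0 h4
  -- compare leading coefficients
  have h3 : κ ^ 2 = (F.natDegree : K) ^ 2 := by
    have h4 := coeff_op v w (le_refl F.natDegree)
    rw [h2, coeff_C_mul, coeff_sub, show (2 : K[X]) = C 2 from rfl, coeff_C_mul, coeff_C,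
      if_neg hF.ne', sub_zero] at h4
    have h5 : F.coeff F.natDegree ≠ 0 := leadingCoeff_ne_zero.2 hF0
    have h6 : (2 * F.coeff F.natDegree) * κ ^ 2 = (2 * F.coeff F.natDegree) * (F.natDegree : K) ^ 2 := by
      linear_combination h4
    exact mul_left_cancel₀ (mul_ne_zero two_ne_zero h5) h6
  rw [h2, h3]

/-- Two polynomials of the same degree of Chebyshev type with respect to the same set differ by an
affine map. -/
theorem CT.unique [IsAlgClosed K] [CharZero K] {F G : K[X]} (hF : 0 < F.natDegree)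
    (hFG : F.natDegree = G.natDegree) {V : Finset K} (h1 : CT F V) (h2 : CT G V) :
    ∃ l : K[X], l.natDegree = 1 ∧ F = l.comp G := by
  classical
  obtain ⟨v, w, hvw, hV⟩ := Finset.card_eq_two.1 h1.1
  have hV' : ∀ y, y ∈ V ↔ y = v ∨ y = w := by intro y; rw [hV]; simp
  have e1 := h1.ode hF hvw hV'
  have hG : 0 < G.natDegree := by omega
  have e2 := h2.ode hG hvw hV'
  have hF0 : F.leadingCoeff ≠ 0 := leadingCoeff_ne_zero.2 (natDegree_pos_ne hF)
  have hG0 : G.leadingCoeff ≠ 0 := leadingCoeff_ne_zero.2 (natDegree_pos_ne hG)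
  set c := F.leadingCoeff / G.leadingCoeff with hc
  have hc0 : c ≠ 0 := div_ne_zero hF0 hG0
  set b := (1 - c) * (v + w) / 2 with hb
  set E := F - C c * G - C b with hE
  have hop : op v w E = C (2 * (F.natDegree : K) ^ 2) * E := by
    have h20 : (2 : K) ≠ 0 := two_ne_zero
    rw [hE, op_sub, op_sub, op_C_mul, op_C, e1, e2, ← hFG, sub_zero]
    have h3 : C (v + w) - C c * C (v + w) = 2 * C b := by
      rw [← C_mul, ← C_sub, show (2 : K[X]) = C 2 from rfl, ← C_mul, hb]
      congr 1
      field_simp
    have h4 : C (2 * (F.natDegree : K) ^ 2) = 2 * C ((F.natDegree : K) ^ 2) := by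
      rw [C_mul]; rfl
    rw [h4]
    linear_combination (-C ((F.natDegree : K) ^ 2)) * h3
  have hE0 : E = 0 := by
    by_contra hne
    have h3 := coeff_op v w (le_refl E.natDegree)
    rw [hop, coeff_C_mul] at h3
    have h4 : E.coeff E.natDegree ≠ 0 := leadingCoeff_ne_zero.2 hne
    have h5 : (F.natDegree : K) ^ 2 = (E.natDegree : K) ^ 2 := by
      have h6 : (2 * E.coeff E.natDegree) * (F.natDegree : K) ^ 2 =
          (2 * E.coeff E.natDegree) * (E.natDegree : K) ^ 2 := by linear_combination h3
      exact mul_left_cancel₀ (mul_ne_zero two_ne_zero h4) h6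
    have h7 : F.natDegree = E.natDegree := by
      have h8 : F.natDegree ^ 2 = E.natDegree ^ 2 := by exact_mod_cast h5
      exact Nat.pow_left_injective (n := 2) (by norm_num) h8
    apply h4
    rw [← h7, hE, coeff_sub, coeff_sub, coeff_C_mul, coeff_C, if_neg hF.ne', sub_zero]
    have h9 : G.coeff F.natDegree = G.leadingCoeff := by rw [hFG]; rfl
    have h10 : F.coeff F.natDegree = F.leadingCoeff := rfl
    rw [h9, h10, hc]
    field_simp
    ring
  refine ⟨C c * X + C b, natDegree_linear hc0, ?_⟩
  rw [add_comp, mul_comp, C_comp, C_comp, X_comp]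
  have : F = E + (C c * G + C b) := by rw [hE]; ring
  rw [this, hE0, zero_add]

end Pool.Agent.W2helper16.IT
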