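import Pool.Agent.W2helper16.IT.Ram

/-!
If `F ∘ π = π ∘ G` and `deg π`, `deg F` are coprime, then the curve `π(x) = F(y)` is parametrised by
`t ↦ (G(t), π(t))`.
-/

set_option autoImplicit false

open Polynomial

namespace Pool.Agent.W2helper16.IT

variable {K : Type*} [Field K]

/-- The substitution `X ↦ G`, `Y ↦ π`. -/
noncomputable def sub2 (π G : K[X]) : K[X][X] →+* K[X] := eval₂RingHom (compRingHom π) G

lemma sub2_apply (π G : K[X]) (p : K[X][X]) : sub2 π G p = p.eval₂ (compRingHom π) G := rfl

lemma sub2_C (π G q : K[X]) : sub2 π G (C q) = q.comp π := by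
  rw [sub2_apply, eval₂_C]; rfl

lemma sub2_X (π G : K[X]) : sub2 π G X = G := by
  rw [sub2_apply, eval₂_X]

lemma sub2_map (π G p : K[X]) : sub2 π G (p.map C) = p.comp G := by
  rw [sub2_apply, eval₂_map]
  have h1 : (compRingHom π).comp (C : K →+* K[X]) = (C : K →+* K[X]) := by
    ext a; simp
  rw [h1]
  rfl

/-- The monic polynomial `(π(X) - F(Y)) / lc(π)` in `X`. -/
noncomputable def rel (π F : K[X]) : K[X][X] :=
  (C π.leadingCoeff⁻¹ * π).map C - C (C π.leadingCoeff⁻¹ * F)

lemma rel_monic {π F : K[X]} (hπ : 0 < π.natDegree) :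
    (rel π F).Monic ∧ (rel π F).natDegree = π.natDegree := by
  have hl : π.leadingCoeff ≠ 0 := leadingCoeff_ne_zero.2 (natDegree_pos_ne hπ)
  have h1 : (C π.leadingCoeff⁻¹ * π).Monic := by
    unfold Monic
    rw [leadingCoeff_mul, leadingCoeff_C, inv_mul_cancel₀ hl]
  have h2 : ((C π.leadingCoeff⁻¹ * π).map (C : K →+* K[X])).Monic := h1.map _
  have h3 : ((C π.leadingCoeff⁻¹ * π).map (C : K →+* K[X])).natDegree = π.natDegree := by
    rw [h1.natDegree_map, natDegree_C_mul (inv_ne_zero hl)]
  have h4 : (C (C π.leadingCoeff⁻¹ * F) : K[X][X]).degree <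
      ((C π.leadingCoeff⁻¹ * π).map (C : K →+* K[X])).degree := by
    rw [degree_eq_natDegree h2.ne_zero, h3]
    exact lt_of_le_of_lt degree_C_le (by exact_mod_cast hπ)
  constructor
  · exact h2.sub_of_left h4
  · unfold rel
    rw [natDegree_sub_eq_left_of_natDegree_lt, h3]
    rw [h3, natDegree_C]; exact hπ

lemma sub2_rel (π F G H : K[X]) : sub2 G H (rel π F) =
    C π.leadingCoeff⁻¹ * (π.comp H - F.comp G) := by
  unfold rel
  rw [map_sub, sub2_map, sub2_C, mul_comp, mul_comp, C_comp, C_comp]
  ring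

/-- A polynomial of degree `< deg π` in `X` which vanishes at `(G, π)` is zero. -/
lemma sub2_eq_zero {π G : K[X]} (hπ : 0 < π.natDegree) (hG : 0 < G.natDegree)
    (hcop : Nat.Coprime π.natDegree G.natDegree) {r : K[X][X]} (hr : r.natDegree < π.natDegree)
    (h0 : sub2 π G r = 0) : r = 0 := by
  set a := π.natDegree with ha
  have hG0 := natDegree_pos_ne hG
  have hsum : sub2 π G r = ∑ i ∈ Finset.range a, (r.coeff i).comp π * G ^ i := by
    rw [sub2_apply, eval₂_eq_sum_range' _ hr]
    rfl
  have hne : ∀ i, (r.coeff i).comp π * G ^ i ≠ 0 → r.coeff i ≠ 0 := by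
    rintro i hi h
    rw [h, zero_comp, zero_mul] at hi
    exact hi rfl
  have hdeg : ∀ i, r.coeff i ≠ 0 →
      ((r.coeff i).comp π * G ^ i).degree = (((r.coeff i).natDegree * a + i * G.natDegree : ℕ) : WithBot ℕ) := by
    intro i hi
    rw [degree_mul, degree_pow, degree_eq_natDegree (comp_ne_zero hi hπ), degree_eq_natDegree hG0,
      natDegree_comp]
    push_cast
    simp [nsmul_eq_mul, ha]
  have hpair : Set.Pairwise { i | i ∈ Finset.range a ∧ (r.coeff i).comp π * G ^ i ≠ 0 }
      (Function.onFun Ne (degree ∘ fun i => (r.coeff i).comp π * G ^ i)) := by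
    rintro i ⟨hi, hi'⟩ j ⟨hj, hj'⟩ hij h
    simp only [Function.comp] at h
    rw [hdeg i (hne i hi'), hdeg j (hne j hj')] at h
    have h1 : (r.coeff i).natDegree * a + i * G.natDegree =
        (r.coeff j).natDegree * a + j * G.natDegree := by exact_mod_cast h
    rw [Finset.mem_range] at hi hj
    have h2 : i * G.natDegree ≡ j * G.natDegree [MOD a] := by
      have h3 : (r.coeff i).natDegree * a + i * G.natDegree ≡
        (r.coeff j).natDegree * a + j * G.natDegree [MOD a] := by rw [h1]
      have h4 : (r.coeff i).natDegree * a ≡ 0 [MOD a] := Nat.modEq_zero_iff_dvd.2 (dvd_mul_left _ _)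
      have h5 : (r.coeff j).natDegree * a ≡ 0 [MOD a] := Nat.modEq_zero_iff_dvd.2 (dvd_mul_left _ _)
      have h6 := (h4.add_right (i * G.natDegree)).symm.trans (h3.trans (h5.add_right (j * G.natDegree)))
      rwa [zero_add, zero_add] at h6
    have h7 : i ≡ j [MOD a] := Nat.ModEq.cancel_right_of_coprime hcop h2
    exact hij (Nat.ModEq.eq_of_lt_of_lt h7 hi hj)
  have h1 := degree_sum_eq_of_disjoint _ _ hpair
  rw [← hsum, h0, degree_zero] at h1
  ext1 i
  rw [coeff_zero]
  by_contra hi
  have hia : i < a := by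
    by_contra h
    exact hi (coeff_eq_zero_of_natDegree_lt (lt_of_lt_of_le hr (not_lt.1 h)))
  have h2 := Finset.le_sup (f := fun i => ((r.coeff i).comp π * G ^ i).degree) (Finset.mem_range.2 hia)
  rw [← h1] at h2
  simp only [le_bot_iff, degree_eq_bot, mul_eq_zero] at h2
  rcases h2 with h2 | h2
  · exact comp_ne_zero hi hπ h2
  · exact pow_ne_zero _ hG0 h2

lemma sub2_integral {π : K[X]} (G : K[X]) (hπ : 0 < π.natDegree) : (sub2 π G).IsIntegral := by
  have hX : (sub2 π G).IsIntegralElem X := by
    refine ⟨(rel π X).map C, (rel_monic hπ).1.map _, ?_⟩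
    rw [eval₂_map]
    have h1 : (sub2 π G).comp (C : K[X] →+* K[X][X]) = compRingHom π := by
      ext a
      · simp [sub2_C]
      · simp [sub2_C]
    rw [h1, ← sub2_apply, sub2_rel]
    simp
  have hC : ∀ a : K, (sub2 π G).IsIntegralElem (C a) := by
    intro a
    have : C a = sub2 π G (C (C a)) := by rw [sub2_C, C_comp]
    rw [this]
    exact RingHom.isIntegralElem_map _
  intro p
  induction p using Polynomial.induction_on with
  | C a => exact hC a
  | add p q hp hq => exact RingHom.IsIntegralElem.add _ hp hq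
  | monomial n a ih =>
    rw [pow_succ, ← mul_assoc]
    exact RingHom.IsIntegralElem.mul _ ih hX

theorem fibre_param [IsAlgClosed K] {F π G : K[X]} (hπ : 0 < π.natDegree) (hF : 0 < F.natDegree)
    (hcop : Nat.Coprime π.natDegree F.natDegree) (H : F.comp π = π.comp G) {c y : K}
    (h : π.eval c = F.eval y) : ∃ t, π.eval t = y ∧ G.eval t = c := by
  have hGd : G.natDegree = F.natDegree := by
    have h1 : F.natDegree * π.natDegree = π.natDegree * G.natDegree := by
      rw [← natDegree_comp, ← natDegree_comp, H]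
    rw [mul_comm] at h1
    exact (Nat.eq_of_mul_eq_mul_left hπ h1).symm
  have hcop' : Nat.Coprime π.natDegree G.natDegree := by rw [hGd]; exact hcop
  have hG : 0 < G.natDegree := by rw [hGd]; exact hF
  set ψ : K[X][X] →+* K := eval₂RingHom (evalRingHom y) c with hψ
  have hψr : ψ (rel π F) = 0 := by
    have h1 : ψ (rel π F) = π.leadingCoeff⁻¹ * π.eval c - π.leadingCoeff⁻¹ * F.eval y := by
      simp only [hψ, rel, coe_eval₂RingHom, eval₂_sub, eval₂_map, eval₂_C, coe_evalRingHom, eval_mul,
        eval_C]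
      congr 1
      have h2 : (evalRingHom y).comp (C : K →+* K[X]) = RingHom.id K := by ext a; simp
      rw [h2, eval₂_id, eval_mul, eval_C]
    rw [h1, h, sub_self]
  have hker : RingHom.ker (sub2 π G) ≤ RingHom.ker ψ := by
    intro p hp
    rw [RingHom.mem_ker] at hp ⊢
    have hmod := modByMonic_add_div p (rel π F)
    have hφr : sub2 π G (rel π F) = 0 := by rw [sub2_rel, H, sub_self, mul_zero]
    have h1 : sub2 π G (p %ₘ rel π F) = 0 := by
      rw [← hmod, map_add, map_mul, hφr, zero_mul, add_zero] at hp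
      exact hp
    have h2 : (p %ₘ rel π F).natDegree < π.natDegree := by
      have := natDegree_modByMonic_lt p (rel_monic (F := F) hπ).1 (by
        intro h1
        have h3 := (rel_monic (F := F) hπ).2
        rw [h1, natDegree_one] at h3
        omega)
      rwa [(rel_monic (F := F) hπ).2] at this
    have h3 := sub2_eq_zero hπ hG hcop' h2 h1
    rw [← hmod, map_add, map_mul, hψr, zero_mul, add_zero, h3, map_zero]
  have htop : (RingHom.ker ψ).map (sub2 π G) ≠ ⊤ := by
    rw [Ne, Ideal.map_eq_top_iff_of_ker_le (sub2 π G) hker (sub2_integral G hπ)]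
    exact RingHom.ker_ne_top ψ
  obtain ⟨g, hg⟩ := (IsPrincipalIdealRing.principal ((RingHom.ker ψ).map (sub2 π G))).principal
  have hg1 : g ∣ π - C y := by
    rw [← Ideal.mem_span_singleton, ← Ideal.submodule_span_eq, ← hg]
    have h1 : sub2 π G (C (X - C y)) = π - C y := by rw [sub2_C]; simp
    rw [← h1]
    apply Ideal.mem_map_of_mem
    rw [RingHom.mem_ker, hψ]
    simp
  have hg2 : g ∣ G - C c := by
    rw [← Ideal.mem_span_singleton, ← Ideal.submodule_span_eq, ← hg]
    have h1 : sub2 π G (X - C (C c)) = G - C c := by rw [map_sub, sub2_X, sub2_C]; simp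
    rw [← h1]
    apply Ideal.mem_map_of_mem
    rw [RingHom.mem_ker, hψ]
    simp
  have hg0 : g ≠ 0 := by
    rintro rfl
    exact sub_C_ne hπ y (zero_dvd_iff.1 hg1)
  have hgu : g.degree ≠ 0 := by
    intro h1
    have h2 : IsUnit g := isUnit_iff_degree_eq_zero.2 h1
    apply htop
    rw [hg, Ideal.submodule_span_eq, Ideal.span_singleton_eq_top]
    exact h2
  obtain ⟨t, ht⟩ := IsAlgClosed.exists_root g hgu
  refine ⟨t, ?_, ?_⟩
  · have := ht.dvd hg1
    rw [IsRoot, eval_sub, eval_C, sub_eq_zero] at this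
    exact this
  · have := ht.dvd hg2
    rw [IsRoot, eval_sub, eval_C, sub_eq_zero] at this
    exact this

end Pool.Agent.W2helper16.IT
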