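import Pool.Agent.W2helper16.IT.LemL

/-!
Reduction to coprime degrees and the main theorem on intertwined polynomials.
-/

set_option autoImplicit false

open Polynomial

namespace Pool.Agent.W2helper16.IT

variable {K : Type*} [Field K]

lemma coprime_quot {a b g d N : ℕ} (ha : a ≠ 0) (hab : a = g * b) (hg : g = Nat.gcd a (d ^ N))
    (haN : a ≤ N) : Nat.Coprime b d := by
  by_contra h
  obtain ⟨p, hp, hpb, hpd⟩ := Nat.Prime.not_coprime_iff_dvd.1 h
  set k := a.factorization p with hk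
  have h1 : p ^ k ∣ a := Nat.ordProj_dvd a p
  have h2 : p ^ k ∣ d ^ N := by
    have h3 : k < a := Nat.factorization_lt p ha
    exact (pow_dvd_pow_of_dvd hpd k).trans (pow_dvd_pow d (by omega))
  have h3 : p ^ k ∣ g := by rw [hg]; exact Nat.dvd_gcd h1 h2
  have h4 : p ^ (k + 1) ∣ a := by
    rw [hab, pow_succ]
    exact mul_dvd_mul h3 hpb
  exact Nat.pow_succ_factorization_not_dvd ha hp h4

lemma finite_stab {U : K[X]} (hU : 0 < U.natDegree) :
    {l : K[X] | l.natDegree = 1 ∧ U.comp l = U}.Finite := by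
  classical
  apply Set.Finite.of_injOn (f := fun l : K[X] => (l.eval 0, l.eval 1))
    (t := ((fib U (U.eval 0)) ×ˢ (fib U (U.eval 1)) : Finset (K × K)))
  · rintro l ⟨_, hl⟩
    simp only [Finset.coe_product, Set.mem_prod, Finset.mem_coe, mem_fib hU]
    rw [← eval_comp, ← eval_comp, hl]
    exact ⟨rfl, rfl⟩
  · rintro l ⟨hl, _⟩ m ⟨hm, _⟩ h
    obtain ⟨a, _, b, rfl⟩ := natDegree_eq_one.1 hl
    obtain ⟨a', _, b', rfl⟩ := natDegree_eq_one.1 hm
    simp only [eval_add, eval_mul, eval_C, eval_X, Prod.mk.injEq, mul_zero, zero_add, mul_one] at h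
    obtain ⟨h1, h2⟩ := h
    rw [h1] at h2 ⊢
    rw [add_right_cancel h2]
  · exact Finset.finite_toSet _

theorem reduce [IsAlgClosed K] [CharZero K] {P π R : K[X]} {n : ℕ} (hn : 1 ≤ n)
    (hP : 2 ≤ P.natDegree) (hπ : 0 < π.natDegree) (H : π.comp R = (it P n).comp π) :
    ∃ (P' π' : K[X]) (M : ℕ), 1 ≤ M ∧ Ge P' P ∧ 0 < π'.natDegree ∧
      Nat.Coprime π'.natDegree P'.natDegree ∧ π'.comp (it R M) = (it P' (n * M)).comp π' := by
  have hP0 : 0 < P.natDegree := by omega
  have hR : R.natDegree = P.natDegree ^ n := by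
    have h1 : π.natDegree * R.natDegree = (it P n).natDegree * π.natDegree := by
      rw [← natDegree_comp, ← natDegree_comp, H]
    rw [mul_comm (it P n).natDegree, natDegree_it] at h1
    exact Nat.eq_of_mul_eq_mul_left hπ h1
  have hR0 : 0 < R.natDegree := by rw [hR]; exact Nat.pow_pos hP0
  set M0 := π.natDegree with hM0
  set N := n * M0 with hN
  have hNM : M0 ≤ N := Nat.le_mul_of_pos_left _ hn
  have Hj : ∀ j, π.comp (it R j) = (it P (n * j)).comp π := by
    intro j
    rw [it_mul]; exact semi_it H j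
  obtain ⟨U, π1, f1, hU1, hU2, hU3, hU4⟩ := engstrom (A := π) (B := it R M0) (E := it P N) (D := π)
    hπ (natDegree_it_pos hR0 _) (natDegree_it_pos hP0 _) hπ (Hj M0)
  have hdegπ : M0 = U.natDegree * π1.natDegree := by rw [← natDegree_comp, ← hU1]
  have hU0 : 0 < U.natDegree := by
    rw [hU4]; exact Nat.gcd_pos_of_pos_left _ hπ
  have hπ1 : 0 < π1.natDegree := by
    rcases Nat.eq_zero_or_pos π1.natDegree with h | h
    · rw [h, mul_zero] at hdegπ; omega
    · exact h
  have hcop : Nat.Coprime π1.natDegree P.natDegree := by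
    apply coprime_quot (g := U.natDegree) (a := M0) (N := N) (by omega) hdegπ _ hNM
    rw [hU4, natDegree_it]
  have hf1 : 0 < f1.natDegree := by
    have h1 : (it P N).natDegree = U.natDegree * f1.natDegree := by rw [← natDegree_comp, ← hU2]
    rcases Nat.eq_zero_or_pos f1.natDegree with h | h
    · rw [h, mul_zero] at h1
      have := natDegree_it_pos hP0 N
      omega
    · exact h
  -- descend `P` through `U`
  have hcomm : (P.comp U).comp f1 = U.comp (f1.comp P) := by
    rw [comp_assoc, ← hU2, ← comp_assoc, ← hU2, ← it_succ, it_succ']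
  obtain ⟨U2, A2, E2, k1, k2, _, k4⟩ := engstrom (A := P.comp U) (B := f1) (E := U)
    (D := f1.comp P) (by rw [natDegree_comp]; exact Nat.mul_pos hP0 hU0) hf1 hU0
    (by rw [natDegree_comp]; exact Nat.mul_pos hf1 hP0) hcomm
  have hU2d : U2.natDegree = U.natDegree := by
    rw [k4, natDegree_comp, Nat.gcd_mul_left_left]
  have hE2 : E2.natDegree = 1 := by
    have h1 : U.natDegree = U2.natDegree * E2.natDegree := by rw [← natDegree_comp, ← k2]
    rw [hU2d] at h1
    exact Nat.eq_of_mul_eq_mul_left hU0 (by rw [mul_one]; exact h1.symm)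
  obtain ⟨m, hm1, hm2, hm3⟩ := exists_inv hE2
  set P' := m.comp A2 with hP'
  have hUP : U.comp P' = P.comp U := by
    rw [k1, hP', ← comp_assoc]
    congr 1
    conv_lhs => rw [k2]
    rw [comp_assoc, hm2, comp_X]
  have gP : Ge P' P := ⟨U, hU0, hUP⟩
  have hP'd : P'.natDegree = P.natDegree := gP.natDegree_eq
  have hP'0 : 0 < P'.natDegree := by omega
  -- the twisting maps
  have key : ∀ j : ℕ, ∃ l : K[X], (l.natDegree = 1 ∧ U.comp l = U) ∧
      (it P' (N * j)).comp π1 = (l.comp π1).comp (it R (M0 * j)) := by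
    intro j
    have h1 : U.comp (π1.comp (it R (M0 * j))) = U.comp ((it P' (N * j)).comp π1) := by
      rw [← comp_assoc, ← hU1, Hj, ← comp_assoc, semi_it hUP, comp_assoc, ← hU1, hN, mul_assoc]
    have hd : (π1.comp (it R (M0 * j))).natDegree = ((it P' (N * j)).comp π1).natDegree := by
      have h2 : U.natDegree * (π1.comp (it R (M0 * j))).natDegree =
          U.natDegree * ((it P' (N * j)).comp π1).natDegree := by
        rw [← natDegree_comp, ← natDegree_comp, h1]
      exact Nat.eq_of_mul_eq_mul_left hU0 h2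
    have hpos : 0 < (π1.comp (it R (M0 * j))).natDegree := by
      rw [natDegree_comp]; exact Nat.mul_pos hπ1 (natDegree_it_pos hR0 _)
    obtain ⟨l, hl1, hl2⟩ := left_cancel hU0 hpos hd h1
    refine ⟨l, ⟨hl1, ?_⟩, ?_⟩
    · apply comp_right_cancel hpos
      rw [comp_assoc, ← hl2, h1]
    · rw [hl2, comp_assoc]
  choose l hl1 hl2 using key
  have hfin := finite_stab hU0
  obtain ⟨x, y, hxy, hlxy⟩ : ∃ x y : ℕ, x < y ∧ l x = l y := by
    have : Finite {l : K[X] | l.natDegree = 1 ∧ U.comp l = U} := hfin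
    obtain ⟨x, y, hne, h⟩ := Finite.exists_ne_map_eq_of_infinite
      (fun j : ℕ => (⟨l j, hl1 j⟩ : {l : K[X] | l.natDegree = 1 ∧ U.comp l = U}))
    have h' : l x = l y := congrArg Subtype.val h
    rcases lt_or_gt_of_ne hne with h1 | h1
    · exact ⟨x, y, h1, h'⟩
    · exact ⟨y, x, h1, h'.symm⟩
  obtain ⟨e, rfl⟩ : ∃ e, y = x + e := ⟨y - x, by omega⟩
  have he : 1 ≤ e := by omega
  refine ⟨P', (l x).comp π1, M0 * e, Nat.mul_pos hπ he, gP, ?_, ?_, ?_⟩
  · rw [natDegree_comp, (hl1 x).1]; omega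
  · rw [natDegree_comp, (hl1 x).1, one_mul, hP'd]; exact hcop
  · apply comp_right_cancel (natDegree_it_pos hR0 (M0 * x))
    rw [comp_assoc, ← it_add, comp_assoc (it P' (n * (M0 * e))), ← hl2 x, ← comp_assoc, ← it_add]
    have h1 : n * (M0 * e) + N * x = N * (x + e) := by rw [hN]; ring
    have h2 : M0 * e + M0 * x = M0 * (x + e) := by ring
    rw [h1, h2, hl2 (x + e), hlxy]

/-- The main theorem. -/
theorem main [IsAlgClosed K] [CharZero K] {P Q R π ρ : K[X]} {n : ℕ} (hn : 1 ≤ n)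
    (hP : 2 ≤ P.natDegree) (hPQ : P.natDegree = Q.natDegree)
    (hπ : 0 < π.natDegree) (hρ : 0 < ρ.natDegree)
    (h1 : π.comp R = (it P n).comp π) (h2 : ρ.comp R = (it Q n).comp ρ) :
    ∃ A B S : K[X], Ge A P ∧ Ge A S ∧ Ge B Q ∧ Ge B S := by
  obtain ⟨P', π', M, hM, gP, hπ', hcP, HP⟩ := reduce hn hP hπ h1
  obtain ⟨Q', ρ', M', hM', gQ, hρ', hcQ, HQ⟩ := reduce hn (by omega) hρ h2
  have dP := gP.natDegree_eq
  have dQ := gQ.natDegree_eq
  set L := 3 * (M * M') with hL
  have hL3 : 3 ≤ L := by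
    rw [hL]
    exact Nat.le_mul_of_pos_right 3 (Nat.mul_pos hM hM')
  have e1 : π'.comp (it R L) = (it P' (n * L)).comp π' := by
    have h3 := semi_it HP (3 * M')
    rw [← it_mul, ← it_mul] at h3
    rw [hL, show 3 * (M * M') = M * (3 * M') by ring, h3]
    congr 2
    ring
  have e2 : ρ'.comp (it R L) = (it Q' (n * L)).comp ρ' := by
    have h3 := semi_it HQ (3 * M)
    rw [← it_mul, ← it_mul] at h3
    rw [hL, show 3 * (M * M') = M' * (3 * M) by ring, h3]
    congr 2
    ring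
  have hnL : 3 ≤ n * L := hL3.trans (Nat.le_mul_of_pos_left L hn)
  obtain ⟨A, z, μ, hz, hμ, hA, hRA⟩ := core (n := n * L) (by omega) (by omega) hπ' hcP e1.symm
  obtain ⟨B, w, ν, hw, hν, hB, hRB⟩ := core (n := n * L) (by omega) (by omega) hρ' hcQ e2.symm
  have gA : Ge A P' := ⟨μ, hμ, hA⟩
  have gB : Ge B Q' := ⟨ν, hν, hB⟩
  have dA := gA.natDegree_eq
  have dB := gB.natDegree_eq
  obtain ⟨z', hz'd, hz1, hz2⟩ := exists_inv hz
  have hAB : it A (n * L) = (z'.comp w).comp (it B (n * L)) := by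
    rw [comp_assoc, ← hRB, hRA, ← comp_assoc, hz2, X_comp]
  obtain ⟨A1, B1, S, g1, g2, g3, g4⟩ := conn_of_iter (by omega) (by omega) hnL
    (by rw [natDegree_comp, hz'd, hw]) hAB
  exact ⟨A1, B1, S, g1.trans (gA.trans gP), g2, g3.trans (gB.trans gQ), g4⟩

end Pool.Agent.W2helper16.IT
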