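import Pool.Agent.W2helper16.IT.PowerTwo

/-!
If `A^n = η ∘ B^n` with `η` of degree one and `n ≥ 3`, then `A` and `B` are joined by
semi-conjugacies.
-/

set_option autoImplicit false

open Polynomial

namespace Pool.Agent.W2helper16.IT

variable {K : Type*} [Field K]

/-- `P ≥ Q`. -/
def Ge (P Q : K[X]) : Prop := ∃ π : K[X], 0 < π.natDegree ∧ π.comp P = Q.comp π

lemma Ge.natDegree_eq {P Q : K[X]} (h : Ge P Q) : P.natDegree = Q.natDegree := by
  obtain ⟨π, hπ, H⟩ := h
  have h3 : π.natDegree * P.natDegree = Q.natDegree * π.natDegree := by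
    rw [← natDegree_comp, ← natDegree_comp, H]
  rw [mul_comm Q.natDegree] at h3
  exact Nat.eq_of_mul_eq_mul_left hπ h3

lemma Ge.refl (P : K[X]) : Ge P P := ⟨X, by rw [natDegree_X]; norm_num, by rw [X_comp, comp_X]⟩

lemma Ge.trans {P Q R : K[X]} (h1 : Ge P Q) (h2 : Ge Q R) : Ge P R := by
  obtain ⟨π, hπ, H⟩ := h1
  obtain ⟨ρ, hρ, H'⟩ := h2
  exact ⟨ρ.comp π, by rw [natDegree_comp]; exact Nat.mul_pos hρ hπ, by
    rw [comp_assoc, H, ← comp_assoc, H', comp_assoc]⟩

lemma iter_derivative_comp_linear (A σ : K[X]) {s : K} (hσ : derivative σ = C s) (k : ℕ) :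
    derivative^[k] (A.comp σ) = C (s ^ k) * (derivative^[k] A).comp σ := by
  induction k with
  | zero => simp
  | succ k ih =>
    rw [Function.iterate_succ_apply', ih, Function.iterate_succ_apply', derivative_C_mul,
      derivative_comp, hσ, ← mul_assoc, ← C_mul, pow_succ]

lemma iter_derivative_linear_comp (A τ : K[X]) {t : K} (hτ : derivative τ = C t) (k : ℕ) :
    derivative^[k + 1] (τ.comp A) = C t * derivative^[k + 1] A := by
  induction k with
  | zero => simp [derivative_comp, hτ, mul_comm]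
  | succ k ih =>
    rw [Function.iterate_succ_apply', ih, derivative_C_mul, ← Function.iterate_succ_apply' derivative]

lemma derivative_deg_one {σ : K[X]} (hσ : σ.natDegree = 1) :
    ∃ s, s ≠ 0 ∧ derivative σ = C s := by
  obtain ⟨a, ha, b, rfl⟩ := natDegree_eq_one.1 hσ
  exact ⟨a, ha, by simp⟩

/-- The centre of a polynomial. -/
lemma exists_centre [CharZero K] {A : K[X]} (hA : 2 ≤ A.natDegree) :
    ∃ c : K, ∀ σ τ : K[X], σ.natDegree = 1 → τ.natDegree = 1 → A.comp σ = τ.comp A →
      σ.eval c = c := by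
  obtain ⟨k, hk⟩ : ∃ k, A.natDegree = k + 1 + 1 := ⟨A.natDegree - 2, by omega⟩
  set L := derivative^[k + 1] A with hL
  have hLd : L.natDegree = 1 := by
    have h0 : ∀ j, (derivative^[j] A).natDegree = A.natDegree - j := by
      intro j
      induction j with
      | zero => rfl
      | succ j ih => rw [Function.iterate_succ_apply', natDegree_derivative, ih]; omega
    rw [hL, h0, hk]
    omega
  obtain ⟨a, ha, b, hab⟩ := natDegree_eq_one.1 hLd
  refine ⟨-b / a, fun σ τ hσ hτ H => ?_⟩
  obtain ⟨s, hs, hs'⟩ := derivative_deg_one hσ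
  obtain ⟨t, ht, ht'⟩ := derivative_deg_one hτ
  have h1 := congrArg (derivative^[k + 1]) H
  rw [iter_derivative_comp_linear A σ hs', iter_derivative_linear_comp A τ ht', ← hL, ← hab] at h1
  have h2 := congrArg (eval (-b / a)) h1
  simp only [eval_mul, eval_C, eval_comp, eval_add, eval_X] at h2
  have h3 : a * (-b / a) + b = 0 := by field_simp; ring
  rw [h3, mul_zero] at h2
  rcases mul_eq_zero.1 h2 with h4 | h4
  · exact absurd h4 (pow_ne_zero _ hs)
  · have h5 : a * σ.eval (-b / a) = a * (-b / a) := by linear_combination h4 - h3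
    exact mul_left_cancel₀ ha h5

/-- Writing a degree one polynomial with a given fixed point. -/
lemma deg_one_fix {σ : K[X]} (hσ : σ.natDegree = 1) {c : K} (h : σ.eval c = c) :
    ∃ s, s ≠ 0 ∧ σ = C s * (X - C c) + C c := by
  obtain ⟨a, ha, b, rfl⟩ := natDegree_eq_one.1 hσ
  refine ⟨a, ha, ?_⟩
  simp only [eval_add, eval_mul, eval_C, eval_X] at h
  have h1 : b = c - a * c := by linear_combination h
  rw [h1, C_sub, C_mul]
  ring

lemma conn_centred [IsAlgClosed K] {A B : K[X]} (hA : 2 ≤ A.natDegree) {α : K}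
    (hα : α ≠ 0) (h1 : A.comp (C α * X) = C (α ^ A.natDegree) * A) (h2 : A = C α * B) :
    ∃ S : K[X], Ge A S ∧ Ge B S := by
  by_cases hfin : ∃ k, 0 < k ∧ α ^ k = 1
  · have hk : 0 < orderOf α := by
      obtain ⟨k, hk0, hk1⟩ := hfin
      exact orderOf_pos_iff.2 (isOfFinOrder_iff_pow_eq_one.2 ⟨k, hk0, hk1⟩)
    set k := orderOf α with hkdef
    have hαk : α ^ k = 1 := pow_orderOf_eq_one α
    have h3 : (A ^ k).comp (C α * X) = A ^ k := by
      have h0 : (α ^ A.natDegree) ^ k = 1 := by rw [← pow_mul, mul_comm, pow_mul, hαk, one_pow]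
      rw [pow_comp, h1, mul_pow, ← C_pow, h0, C_1, one_mul]
    have hco : ∀ i, (A ^ k).coeff i ≠ 0 → k ∣ i := by
      intro i hi
      have h4 := congrArg (fun p => coeff p i) h3
      simp only [comp_C_mul_X_coeff] at h4
      have h5 : α ^ i = 1 := mul_left_cancel₀ hi (by rw [h4, mul_one])
      exact orderOf_dvd_of_pow_eq_one h5
    set S := contract k (A ^ k) with hS
    have h5 : S.comp (X ^ k) = A ^ k := by
      rw [← expand_eq_comp_X_pow]
      ext i
      rw [coeff_expand hk]
      split_ifs with h6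
      · rw [hS, coeff_contract hk.ne', Nat.div_mul_cancel h6]
      · by_contra h7
        exact h6 (hco i (fun h => h7 h.symm))
    have hXk : 0 < (X ^ k : K[X]).natDegree := by rw [natDegree_X_pow]; exact hk
    have gA : Ge A S := ⟨X ^ k, hXk, by rw [h5, X_pow_comp]⟩
    have gB : Ge B S := ⟨X ^ k, hXk, by
      rw [h5, X_pow_comp]
      conv_rhs => rw [h2, mul_pow, ← C_pow, hαk, C_1, one_mul]⟩
    exact ⟨S, gA, gB⟩
  · push Not at hfin
    set d := A.natDegree with hd
    have hmono : A = C (A.coeff d) * X ^ d := by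
      ext i
      rw [coeff_C_mul_X_pow]
      split_ifs with h3
      · rw [h3]
      · rcases lt_or_gt_of_ne h3 with h4 | h4
        · by_contra h5
          have h6 := congrArg (fun p => coeff p i) h1
          simp only [comp_C_mul_X_coeff, coeff_C_mul] at h6
          have h7 : α ^ i = α ^ d := mul_left_cancel₀ h5 (by rw [h6, mul_comm])
          obtain ⟨e, he⟩ : ∃ e, d = i + e := ⟨d - i, by omega⟩
          rw [he, pow_add] at h7
          have h8 : α ^ e = 1 := mul_left_cancel₀ (pow_ne_zero i hα) (by rw [mul_one]; exact h7.symm)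
          exact hfin e (by omega) h8
        · exact coeff_eq_zero_of_natDegree_lt h4
    obtain ⟨μ, hμ⟩ := IsAlgClosed.exists_pow_nat_eq α (n := d - 1) (by omega)
    have hμ0 : μ ≠ 0 := by
      rintro rfl
      rw [zero_pow (by omega)] at hμ
      exact hα hμ.symm
    refine ⟨B, ?_, Ge.refl B⟩
    refine ⟨C μ * X, by rw [natDegree_C_mul_X μ hμ0]; norm_num, ?_⟩
    have hαC : (C α : K[X]) ≠ 0 := C_ne_zero.2 hα
    apply mul_left_cancel₀ hαC
    have h3 : C α * B.comp (C μ * X) = A.comp (C μ * X) := by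
      conv_rhs => rw [h2]
      rw [mul_comp, C_comp]
    rw [h3, hmono]
    simp only [mul_comp, C_comp, X_comp, pow_comp]
    rw [mul_pow, ← C_pow]
    have h4 : μ ^ d = α * μ := by
      rw [← hμ, ← pow_succ]
      congr 1
      omega
    rw [h4, C_mul]
    ring

lemma it_left [IsAlgClosed K] [CharZero K] {A B η : K[X]} (hA : 0 < A.natDegree)
    (hAB : A.natDegree = B.natDegree) {n : ℕ} (hη : η.natDegree = 1)
    (H : it A n = η.comp (it B n)) (k : ℕ) (hk : k < n) :
    ∃ m : K[X], m.natDegree = 1 ∧ it A (n - k) = m.comp (it B (n - k)) := by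
  induction k with
  | zero => exact ⟨η, hη, H⟩
  | succ k ih =>
    obtain ⟨m, hm1, hm2⟩ := ih (by omega)
    have h1 : n - k = (n - (k + 1)) + 1 := by omega
    rw [h1, it_succ, it_succ, ← comp_assoc] at hm2
    obtain ⟨l, hl1, hl2⟩ := left_cancel (A := m.comp B) (B := it B (n - (k + 1))) (E := A)
      (D := it A (n - (k + 1))) (by rw [natDegree_comp, hm1, ← hAB]; omega)
      (natDegree_it_pos (by omega) _) (by rw [natDegree_it, natDegree_it, hAB]) hm2.symm
    exact ⟨l, hl1, hl2⟩

theorem conn_of_iter [IsAlgClosed K] [CharZero K] {A B η : K[X]} (hA : 2 ≤ A.natDegree)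
    (hAB : A.natDegree = B.natDegree) {n : ℕ} (hn : 3 ≤ n) (hη : η.natDegree = 1)
    (H : it A n = η.comp (it B n)) :
    ∃ A1 B1 S : K[X], Ge A1 A ∧ Ge A1 S ∧ Ge B1 B ∧ Ge B1 S := by
  have hA0 : 0 < A.natDegree := by omega
  have hB0 : 0 < B.natDegree := by omega
  obtain ⟨m1, m1d, h1⟩ := it_left hA0 hAB hη H (n - 1) (by omega)
  obtain ⟨m2, m2d, h2⟩ := it_left hA0 hAB hη H (n - 2) (by omega)
  obtain ⟨m3, m3d, h3⟩ := it_left hA0 hAB hη H (n - 3) (by omega)
  rw [show n - (n - 1) = 1 by omega, it_one, it_one] at h1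
  rw [show n - (n - 2) = 1 + 1 by omega] at h2
  rw [show n - (n - 3) = 2 + 1 by omega, it_succ, it_succ B 2] at h3
  rw [show (1 : ℕ) + 1 = 2 from rfl] at h2
  have hB2 : 0 < (it B 2).natDegree := natDegree_it_pos hB0 2
  -- `A ∘ m1 = m2 ∘ B`
  have e1 : A.comp m1 = m2.comp B := by
    apply comp_right_cancel hB0
    rw [comp_assoc, ← h1, comp_assoc]
    have h4 : it A 2 = A.comp A := by rw [show (2 : ℕ) = 1 + 1 from rfl, it_succ, it_one]
    have h5 : it B 2 = B.comp B := by rw [show (2 : ℕ) = 1 + 1 from rfl, it_succ, it_one]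
    rw [← h4, ← h5, h2]
  have e2 : A.comp m2 = m3.comp B := by
    apply comp_right_cancel hB2
    rw [comp_assoc, ← h2, comp_assoc, h3]
  obtain ⟨n1, n1d, hn1, hn1'⟩ := exists_inv m1d
  have hB : B = n1.comp A := by rw [h1, ← comp_assoc, hn1', X_comp]
  have e1' : A.comp m1 = (m2.comp n1).comp A := by rw [e1, comp_assoc, ← hB]
  have e2' : A.comp m2 = (m3.comp n1).comp A := by rw [e2, comp_assoc, ← hB]
  obtain ⟨c, hc⟩ := exists_centre hA
  have f1 := hc m1 _ m1d (by rw [natDegree_comp, m2d, n1d]) e1'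
  have f2 := hc m2 _ m2d (by rw [natDegree_comp, m3d, n1d]) e2'
  obtain ⟨α, hα, hm1⟩ := deg_one_fix m1d f1
  obtain ⟨β, hβ, hm2⟩ := deg_one_fix m2d f2
  set T : K[X] := X + C c with hT
  have hTd : T.natDegree = 1 := natDegree_X_add_C c
  set A1 := A.comp T - C c with hA1
  set B1 := B.comp T - C c with hB1
  have gA : Ge A1 A := ⟨T, by omega, by rw [hT, add_comp, X_comp, C_comp, hA1, sub_add_cancel]⟩
  have gB : Ge B1 B := ⟨T, by omega, by rw [hT, add_comp, X_comp, C_comp, hB1, sub_add_cancel]⟩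
  have k1 : A1 = C α * B1 := by
    rw [hA1, hB1, h1, hm1]
    simp only [add_comp, mul_comp, sub_comp, C_comp, X_comp]
    ring
  have k2 : A1.comp (C α * X) = C β * B1 := by
    have h4 := congrArg (fun p => p.comp T) e1
    rw [comp_assoc, comp_assoc, hm1, hm2] at h4
    simp only [add_comp, mul_comp, sub_comp, C_comp, X_comp] at h4
    have h5 : C α * (T - C c) + C c = T.comp (C α * X) := by
      rw [hT]; simp
    rw [h5, ← comp_assoc] at h4
    rw [hA1, sub_comp, C_comp, h4, hB1]
    ring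
  have hdA : A1.natDegree = A.natDegree := gA.natDegree_eq
  have hA10 : A1.leadingCoeff ≠ 0 := leadingCoeff_ne_zero.2 (natDegree_pos_ne (by omega))
  have hBlc : A1.leadingCoeff = α * B1.leadingCoeff := by
    rw [k1, leadingCoeff_mul, leadingCoeff_C]
  have hB10 : B1.leadingCoeff ≠ 0 := by
    intro h; rw [h, mul_zero] at hBlc; exact hA10 hBlc
  have k3 : α ^ A1.natDegree * α = β := by
    have h4 := congrArg leadingCoeff k2
    rw [leadingCoeff_comp (by rw [natDegree_C_mul_X α hα]; norm_num), leadingCoeff_mul,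
      leadingCoeff_mul, leadingCoeff_C, leadingCoeff_C, leadingCoeff_X, mul_one, hBlc] at h4
    exact mul_right_cancel₀ hB10 (by linear_combination h4)
  have k4 : A1.comp (C α * X) = C (α ^ A1.natDegree) * A1 := by
    rw [k2, ← k3, C_mul, mul_assoc, ← k1]
  obtain ⟨S, hS1, hS2⟩ := conn_centred (by omega) hα k4 k1
  exact ⟨A1, B1, S, gA, hS1, gB, hS2⟩

end Pool.Agent.W2helper16.IT
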