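import Pool.Agent.W2helper16.IT.Cheb

/-!
Iterates, the Chebyshev case and the power case.
-/

set_option autoImplicit false

open Polynomial

namespace Pool.Agent.W2helper16.IT

variable {K : Type*} [Field K]

/-- The `n`-th iterate of `P` under composition. -/
noncomputable def it (P : K[X]) (n : ℕ) : K[X] := P.comp^[n] X

lemma it_zero (P : K[X]) : it P 0 = X := rfl

lemma it_succ (P : K[X]) (n : ℕ) : it P (n + 1) = P.comp (it P n) := by
  unfold it; rw [Function.iterate_succ_apply']

lemma it_one (P : K[X]) : it P 1 = P := by rw [it_succ, it_zero, comp_X]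

lemma it_add (P : K[X]) (m n : ℕ) : it P (m + n) = (it P m).comp (it P n) := by
  induction m with
  | zero => rw [Nat.zero_add, it_zero, X_comp]
  | succ m ih => rw [Nat.succ_add, it_succ, it_succ, ih, comp_assoc]

lemma it_succ' (P : K[X]) (n : ℕ) : it P (n + 1) = (it P n).comp P := by
  rw [it_add, it_one]

lemma it_mul (P : K[X]) (m n : ℕ) : it P (m * n) = it (it P m) n := by
  induction n with
  | zero => rw [Nat.mul_zero, it_zero, it_zero]
  | succ n ih => rw [Nat.mul_succ, Nat.add_comm, it_add, ih, it_succ]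

lemma natDegree_it (P : K[X]) (n : ℕ) : (it P n).natDegree = P.natDegree ^ n := by
  induction n with
  | zero => rw [it_zero, natDegree_X, pow_zero]
  | succ n ih => rw [it_succ, natDegree_comp, ih, pow_succ, mul_comm]

lemma natDegree_it_pos {P : K[X]} (hP : 0 < P.natDegree) (n : ℕ) : 0 < (it P n).natDegree := by
  rw [natDegree_it]; exact Nat.pow_pos hP

lemma semi_it {π P Q : K[X]} (h : π.comp P = Q.comp π) (n : ℕ) :
    π.comp (it P n) = (it Q n).comp π := by
  induction n with
  | zero => rw [it_zero, it_zero, comp_X, X_comp]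
  | succ n ih => rw [it_succ, it_succ, ← comp_assoc, h, comp_assoc, ih, comp_assoc]

lemma CT.it {P : K[X]} {V : Finset K} (hP : 0 < P.natDegree) (h : CT P V) {n : ℕ} (hn : 1 ≤ n) :
    CT (it P n) V := by
  induction n, hn using Nat.le_induction with
  | base => rw [it_one]; exact h
  | succ n _ ih => rw [it_succ]; exact CT.comp hP (natDegree_it_pos hP n) h ih

/-- The Chebyshev case. -/
theorem core_ct [IsAlgClosed K] [CharZero K] {P π R : K[X]} {n : ℕ} (hn : 1 ≤ n)
    (hP : 2 ≤ P.natDegree) (hπ : 0 < π.natDegree) (H : (it P n).comp π = π.comp R) {V : Finset K}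
    (h : CT (it P n) V) :
    ∃ A z μ : K[X], z.natDegree = 1 ∧ 0 < μ.natDegree ∧ μ.comp A = P.comp μ ∧
      R = z.comp (it A n) := by
  classical
  have hFd : 2 ≤ (it P n).natDegree := by
    rw [natDegree_it]
    calc 2 ≤ P.natDegree := hP
      _ = P.natDegree ^ 1 := (pow_one _).symm
      _ ≤ P.natDegree ^ n := Nat.pow_le_pow_right (by omega) hn
  have hF0 : 0 < (it P n).natDegree := by omega
  have hRd : R.natDegree = (it P n).natDegree := by
    have h1 : (it P n).natDegree * π.natDegree = π.natDegree * R.natDegree := by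
      rw [← natDegree_comp, ← natDegree_comp, H]
    rw [mul_comm] at h1
    exact (Nat.eq_of_mul_eq_mul_left hπ h1).symm
  obtain ⟨O, hO⟩ := h.pull hπ hFd H
  obtain ⟨v1, v2, hv, hV⟩ := Finset.card_eq_two.1 h.1
  obtain ⟨w1, w2, hw, hO'⟩ := Finset.card_eq_two.1 hO.1
  -- `m : V → O` affine, `l` its inverse
  set m : K[X] := C ((w2 - w1) / (v2 - v1)) * X + C (w1 - (w2 - w1) / (v2 - v1) * v1) with hm
  have hv' : v2 - v1 ≠ 0 := sub_ne_zero.2 hv.symm
  have hw' : w2 - w1 ≠ 0 := sub_ne_zero.2 hw.symm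
  have hm1 : m.natDegree = 1 := natDegree_linear (div_ne_zero hw' hv')
  have hme : ∀ t, m.eval t = (w2 - w1) / (v2 - v1) * (t - v1) + w1 := by
    intro t
    rw [hm]
    simp only [eval_add, eval_mul, eval_C, eval_X]
    ring
  obtain ⟨l, hl1, hl2, hl3⟩ := exists_inv hm1
  have hVO : ∀ t, t ∈ V ↔ m.eval t ∈ O := by
    intro t
    rw [hV, hO', hme]
    simp only [Finset.mem_insert, Finset.mem_singleton]
    constructor
    · rintro (rfl | rfl)
      · left; ring
      · right; field_simp; ring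
    · rintro (h1 | h1)
      · left
        have h2 : (w2 - w1) / (v2 - v1) * (t - v1) = 0 := by linear_combination h1
        rcases mul_eq_zero.1 h2 with h3 | h3
        · exact absurd h3 (div_ne_zero hw' hv')
        · exact sub_eq_zero.1 h3
      · right
        have h2 : (w2 - w1) / (v2 - v1) * (t - v2) = 0 := by
          have h4 : (w2 - w1) / (v2 - v1) * (v2 - v1) = w2 - w1 := div_mul_cancel₀ _ hv'
          linear_combination h1 - h4
        rcases mul_eq_zero.1 h2 with h3 | h3
        · exact absurd h3 (div_ne_zero hw' hv')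
        · exact sub_eq_zero.1 h3
  have hR0 : 0 < R.natDegree := by omega
  have h1 := hO.conj hR0 hl1 hm1 hl2 h.1 hVO (fun f hf y => ram_one hf y)
  have hd : (l.comp (R.comp m)).natDegree = (it P n).natDegree := by
    rw [natDegree_comp, natDegree_comp, hl1, hm1, hRd, one_mul, mul_one]
  obtain ⟨ε, hε1, hε2⟩ := CT.unique (by rw [hd]; exact hF0) hd h1 h
  refine ⟨m.comp (P.comp l), m.comp (ε.comp l), l, ?_, by omega, ?_, ?_⟩
  · rw [natDegree_comp, natDegree_comp, hm1, hε1, hl1]
  · rw [← comp_assoc, hl3, X_comp]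
  · have h2 : l.comp (m.comp (P.comp l)) = P.comp l := by rw [← comp_assoc, hl3, X_comp]
    have h3 := semi_it h2 n
    rw [comp_assoc, comp_assoc, h3, ← comp_assoc ε, ← hε2]
    rw [comp_assoc l, comp_assoc R, hl2, comp_X, ← comp_assoc, hl2, X_comp]

/-- A weighted count. -/
lemma count_gen [IsAlgClosed K] [CharZero K] {F : K[X]} (hF : 0 < F.natDegree) (W S : Finset K)
    (p q r : ℕ) (h : ∀ y, F.eval y ∈ W → (y ∈ S → p * ram F y ≤ q * (ram F y - 1) + r) ∧
      (y ∉ S → p * ram F y ≤ q * (ram F y - 1))) :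
    p * (W.card * F.natDegree) ≤ q * (F.natDegree - 1) + r * S.card := by
  classical
  have h1 := sum_pre hF W
  have h2 := sum_ram_sub_one (f := F) (pre F W)
  have h3 : ∑ y ∈ pre F W, p * ram F y ≤
      ∑ y ∈ pre F W, (q * (ram F y - 1) + if y ∈ S then r else 0) := by
    apply Finset.sum_le_sum
    intro y hy
    have h4 := h y ((mem_pre hF).1 hy)
    split_ifs with h5
    · exact h4.1 h5
    · rw [add_zero]; exact h4.2 h5
  rw [← Finset.mul_sum, h1, Finset.sum_add_distrib, ← Finset.mul_sum] at h3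
  have h7 : ∑ y ∈ pre F W, (if y ∈ S then r else 0) ≤ r * S.card := by
    rw [Finset.sum_ite_mem, Finset.sum_const, smul_eq_mul, mul_comm]
    exact Nat.mul_le_mul_left _ (Finset.card_le_card Finset.inter_subset_right)
  have h8 := Nat.mul_le_mul_left q h2
  omega

/-- The divisibility property at `v`. -/
def Phi (P : K[X]) (n a : ℕ) (v : K) : Prop :=
  ∀ y, y ≠ v → (it P n).eval y = v → a ∣ ram (it P n) y

section
variable [IsAlgClosed K] [CharZero K]

omit [CharZero K] in
lemma Phi.fix {P : K[X]} (hP : 0 < P.natDegree) {n a : ℕ} (ha : 2 ≤ a)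
    (hcop : Nat.Coprime a P.natDegree) {v : K} (h : Phi P n a v) :
    (it P n).eval v = v ∧ Nat.Coprime a (ram (it P n) v) := by
  classical
  have hF0 : 0 < (it P n).natDegree := natDegree_it_pos hP n
  have h1 := sum_fib hF0 v
  have hc : Nat.Coprime a (it P n).natDegree := by
    rw [natDegree_it]; exact Nat.Coprime.pow_right n hcop
  have h2 : (it P n).eval v = v := by
    by_contra hne
    have h3 : a ∣ ∑ y ∈ fib (it P n) v, ram (it P n) y := by
      apply Finset.dvd_sum
      intro y hy
      rw [mem_fib hF0] at hy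
      exact h y (by rintro rfl; exact hne hy) hy
    rw [h1] at h3
    have h4 := Nat.Coprime.eq_one_of_dvd hc h3
    omega
  refine ⟨h2, ?_⟩
  have h3 : v ∈ fib (it P n) v := (mem_fib hF0).2 h2
  rw [← Finset.add_sum_erase _ _ h3] at h1
  have h4 : a ∣ ∑ y ∈ (fib (it P n) v).erase v, ram (it P n) y := by
    apply Finset.dvd_sum
    intro y hy
    rw [Finset.mem_erase, mem_fib hF0] at hy
    exact h y hy.1 hy.2
  obtain ⟨k, hk⟩ := h4
  rw [hk] at h1
  rw [← h1] at hc
  exact (Nat.coprime_add_mul_left_right _ _ _).1 hc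

lemma Phi.claim1 {P : K[X]} (hP : 0 < P.natDegree) {m a : ℕ} (ha : 2 ≤ a)
    (hcop : Nat.Coprime a P.natDegree) {v : K} (h : Phi P (m + 1) a v) :
    (∀ y, y ≠ v → P.eval y = P.eval v → a ∣ ram P y) ∧ Nat.Coprime a (ram P v) := by
  obtain ⟨h1, h2⟩ := h.fix hP ha hcop
  have hm := natDegree_it_pos hP m
  have h3 : ∀ y, ram (it P (m + 1)) y = ram (it P m) (P.eval y) * ram P y := by
    intro y
    rw [it_succ', ram_comp hm hP]
  rw [h3] at h2
  refine ⟨fun y hy hPy => ?_, Nat.Coprime.coprime_mul_left_right h2⟩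
  have h4 : (it P (m + 1)).eval y = v := by
    rw [it_succ', eval_comp, hPy, ← eval_comp, ← it_succ', h1]
  have h5 := h y hy h4
  rw [h3, hPy] at h5
  exact (Nat.Coprime.coprime_mul_right_right h2).dvd_of_dvd_mul_left h5

lemma Phi.next {P : K[X]} (hP : 0 < P.natDegree) {m a : ℕ} (ha : 2 ≤ a)
    (hcop : Nat.Coprime a P.natDegree) {v : K} (h : Phi P (m + 1) a v) :
    Phi P (m + 1) a (P.eval v) := by
  obtain ⟨h1, h2⟩ := h.fix hP ha hcop
  obtain ⟨h3, _⟩ := h.claim1 hP ha hcop
  have hm := natDegree_it_pos hP m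
  intro y hy hFy
  have hFy' := hFy
  rw [it_succ, eval_comp] at hFy
  rw [it_succ, ram_comp hP hm]
  by_cases hw : (it P m).eval y = v
  · apply Dvd.dvd.mul_left
    have h4 : ∀ u ∈ fib P y, a ∣ ram (it P m) y * ram P u := by
      intro u hu
      rw [mem_fib hP] at hu
      have h5 : u ≠ v := by rintro rfl; exact hy hu.symm
      have h6 : (it P (m + 1)).eval u = v := by rw [it_succ', eval_comp, hu, hw]
      have h7 := h u h5 h6
      rwa [it_succ', ram_comp hm hP, hu] at h7
    have h5 := Finset.dvd_sum h4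
    rw [← Finset.mul_sum, sum_fib hP] at h5
    exact hcop.dvd_of_dvd_mul_right h5
  · exact Dvd.dvd.mul_right (h3 _ hw hFy) _

lemma Phi.orbit {P : K[X]} (hP : 0 < P.natDegree) {m a : ℕ} (ha : 2 ≤ a)
    (hcop : Nat.Coprime a P.natDegree) {v : K} (h : Phi P (m + 1) a v) (j : ℕ) :
    Phi P (m + 1) a ((it P j).eval v) := by
  induction j with
  | zero => rw [it_zero, eval_X]; exact h
  | succ j ih => rw [it_succ, eval_comp]; exact ih.next hP ha hcop

end

end Pool.Agent.W2helper16.IT
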