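import Pool.Agent.W2helper16.IT.Power

/-!
The power case: `π = v + c (x - z)^a`.
-/

set_option autoImplicit false

open Polynomial

namespace Pool.Agent.W2helper16.IT

variable {K : Type*} [Field K] [IsAlgClosed K] [CharZero K]

/-- If `P(v) ≠ v`, then `P` is of Chebyshev type. -/
lemma Phi.ct {P : K[X]} (hP : 2 ≤ P.natDegree) {m a : ℕ} (ha : 2 ≤ a)
    (hcop : Nat.Coprime a P.natDegree) {v : K} (h : Phi P (m + 1) a v) (hv : P.eval v ≠ v) :
    ∃ V, CT P V := by
  classical
  have hP0 : 0 < P.natDegree := by omega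
  have hfix : ∀ j, (it P (m + 1)).eval ((it P j).eval v) = (it P j).eval v := fun j =>
    ((h.orbit hP0 ha hcop j).fix hP0 ha hcop).1
  set v1 := P.eval v with hv1
  set v2 := P.eval v1 with hv2
  set v3 := (it P m).eval v with hv3
  have hPv3 : P.eval v3 = v := by
    have := hfix 0
    rwa [it_zero, eval_X, it_succ, eval_comp] at this
  have e1 : (it P 1).eval v = v1 := by rw [it_one]
  have h0 := h.claim1 hP0 ha hcop
  have h1 : (∀ y, y ≠ v1 → P.eval y = P.eval v1 → a ∣ ram P y) ∧ Nat.Coprime a (ram P v1) := by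
    have := (h.orbit hP0 ha hcop 1).claim1 hP0 ha hcop
    rwa [e1] at this
  have h3 := (h.orbit hP0 ha hcop m).claim1 hP0 ha hcop
  rw [← hv3, hPv3] at h3
  -- `v1 ≠ v2`
  have h12 : v1 ≠ v2 := by
    intro heq
    have h4 : ∀ j, (it P j).eval v1 = v1 := by
      intro j
      induction j with
      | zero => rw [it_zero, eval_X]
      | succ j ih => rw [it_succ, eval_comp, ih, ← hv2, heq]
    have h5 := hfix 0
    rw [it_zero, eval_X, it_succ', eval_comp, ← hv1, h4] at h5
    exact hv h5
  have h20 : v2 = v := by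
    by_contra hne
    have hc := count_gen hP0 {v, v1, v2} {v, v1, v3} 1 2 1 (by
      intro y hy
      have hr := ram_pos hP0 y
      refine ⟨fun _ => by omega, fun hyS => ?_⟩
      simp only [Finset.mem_insert, Finset.mem_singleton, not_or] at hy hyS
      have hdvd : a ∣ ram P y := by
        rcases hy with hy | hy | hy
        · exact h3.1 y hyS.2.2 hy
        · exact h0.1 y hyS.1 hy
        · exact h1.1 y hyS.2.1 hy
      have := Nat.le_of_dvd hr hdvd
      omega)
    have hcard : ({v, v1, v2} : Finset K).card = 3 := by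
      rw [Finset.card_insert_of_notMem, Finset.card_insert_of_notMem, Finset.card_singleton]
      · simpa using h12
      · simp only [Finset.mem_insert, Finset.mem_singleton, not_or]
        exact ⟨fun h => hv h.symm, fun h => hne h.symm⟩
    have hcard2 : ({v, v1, v3} : Finset K).card ≤ 3 := Finset.card_le_three
    rw [hcard] at hc
    omega
  have ha2 : a = 2 := by
    by_contra hne
    have hc := count_gen hP0 {v, v1} {v, v1} 2 3 2 (by
      intro y hy
      have hr := ram_pos hP0 y
      refine ⟨fun _ => by omega, fun hyS => ?_⟩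
      simp only [Finset.mem_insert, Finset.mem_singleton, not_or] at hy hyS
      have hdvd : a ∣ ram P y := by
        rcases hy with hy | hy
        · exact h1.1 y hyS.2 (by rw [hy, ← hv2, h20])
        · exact h0.1 y hyS.1 hy
      have := Nat.le_of_dvd hr hdvd
      omega)
    have hcard : ({v, v1} : Finset K).card = 2 := Finset.card_pair (fun h => hv h.symm)
    rw [hcard] at hc
    omega
  subst ha2
  have hodd : ∀ k, Nat.Coprime 2 k → Odd k := fun k hk => Nat.coprime_two_left.1 hk
  refine ⟨{v, v1}, Finset.card_pair (fun h => hv h.symm), fun y => ?_⟩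
  simp only [Finset.mem_insert, Finset.mem_singleton]
  constructor
  · rintro (rfl | rfl)
    · exact ⟨Or.inr rfl, hodd _ h0.2⟩
    · exact ⟨Or.inl h20, hodd _ h1.2⟩
  · rintro ⟨h4 | h4, h5⟩
    · right
      by_contra hy
      have := h1.1 y hy (by rw [h4, ← hv2, h20])
      rw [← even_iff_two_dvd, ← Nat.not_odd_iff_even] at this
      exact this h5
    · left
      by_contra hy
      have := h0.1 y hy h4
      rw [← even_iff_two_dvd, ← Nat.not_odd_iff_even] at this
      exact this h5

omit [CharZero K] in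
/-- If `P(v) = v`, then `P` lifts through the power map. -/
lemma lift_power {P π : K[X]} (hP : 0 < P.natDegree) {a : ℕ} (ha : 0 < a)
    {v z c : K} (hπe : π = C v + C c * (X - C z) ^ a) (hv : P.eval v = v)
    (h : ∀ y, y ≠ v → P.eval y = v → a ∣ ram P y) :
    ∃ A : K[X], π.comp A = P.comp π := by
  classical
  obtain ⟨q, hq, hnd⟩ := exists_eq_pow_rootMultiplicity_mul_and_not_dvd (P - C v) (sub_C_ne hP v) v
  have hrv : (P - C v).rootMultiplicity v = ram P v := by unfold ram; rw [hv]
  rw [hrv] at hq
  obtain ⟨s, hs⟩ : ∃ s, ram P v = s + 1 := ⟨ram P v - 1, by have := ram_pos hP v; omega⟩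
  rw [hs] at hq
  have hqne : (X - C v) ^ (s + 1) * q ≠ 0 := by rw [← hq]; exact sub_C_ne hP v
  obtain ⟨g, hg⟩ := exists_pow (p := q) ha (by
    intro y
    by_cases hy : y = v
    · subst hy
      rw [rootMultiplicity_eq_zero]
      · exact dvd_zero _
      · intro h1; exact hnd (dvd_iff_isRoot.2 h1)
    · have h1 : (P - C v).rootMultiplicity y = q.rootMultiplicity y := by
        rw [hq, rootMultiplicity_mul hqne, rootMultiplicity_pow', rootMultiplicity_X_sub_C, if_neg hy,
          mul_zero, zero_add]
      rw [← h1]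
      by_cases hPy : P.eval y = v
      · have h2 : (P - C v).rootMultiplicity y = ram P y := by unfold ram; rw [hPy]
        rw [h2]; exact h y hy hPy
      · rw [rootMultiplicity_eq_zero]
        · exact dvd_zero _
        · rw [IsRoot, eval_sub, eval_C, sub_eq_zero]; exact hPy)
  obtain ⟨ρ, hρ⟩ := IsAlgClosed.exists_pow_nat_eq (c ^ s) ha
  refine ⟨C z + C ρ * (X - C z) ^ (s + 1) * g.comp π, ?_⟩
  have hPe : P = C v + (X - C v) ^ (s + 1) * g ^ a := by
    rw [← hg, ← hq]; ring
  have h1 : P.comp π = C v + (π - C v) ^ (s + 1) * (g.comp π) ^ a := by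
    conv_lhs => rw [hPe]
    simp only [add_comp, mul_comp, pow_comp, sub_comp, X_comp, C_comp]
  have h2 : π - C v = C c * (X - C z) ^ a := by rw [hπe]; ring
  rw [h1, h2]
  set G := g.comp π
  conv_lhs => rw [hπe]
  simp only [add_comp, mul_comp, pow_comp, sub_comp, X_comp, C_comp]
  rw [add_sub_cancel_left, mul_pow, mul_pow, ← C_pow, hρ, C_pow, mul_pow, ← pow_mul, ← pow_mul,
    mul_comm (s + 1) a]
  ring

/-- The power case. -/
theorem core_pow {P π R : K[X]} {n : ℕ} (hn : 1 ≤ n) (hP : 2 ≤ P.natDegree)
    (hπ : 0 < π.natDegree) (hcop : Nat.Coprime π.natDegree P.natDegree)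
    {v z c : K} (hc : c ≠ 0) (hπe : π = C v + C c * (X - C z) ^ π.natDegree)
    (H : (it P n).comp π = π.comp R) :
    (∃ A : K[X], π.comp A = P.comp π) ∨ ∃ V, CT P V := by
  classical
  have hP0 : 0 < P.natDegree := by omega
  rcases Nat.lt_or_ge π.natDegree 2 with h1 | h2
  · left
    obtain ⟨l, hl1, hl2, hl3⟩ := exists_inv (l := π) (by omega)
    exact ⟨l.comp (P.comp π), by rw [← comp_assoc, hl2, X_comp]⟩
  set a := π.natDegree with ha
  obtain ⟨m, rfl⟩ : ∃ m, n = m + 1 := ⟨n - 1, by omega⟩
  have hF0 := natDegree_it_pos hP0 (m + 1)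
  have hR0 : 0 < R.natDegree := by
    have h1 : (it P (m + 1)).natDegree * π.natDegree = π.natDegree * R.natDegree := by
      rw [← natDegree_comp, ← natDegree_comp, H]
    rcases Nat.eq_zero_or_pos R.natDegree with h | h
    · rw [h, mul_zero] at h1
      exact absurd h1 (Nat.mul_pos hF0 hπ).ne'
    · exact h
  have heval : ∀ t, π.eval t = v ↔ t = z := by
    intro t
    rw [hπe]
    simp only [eval_add, eval_mul, eval_pow, eval_sub, eval_X, eval_C]
    constructor
    · intro h
      have h3 : c * (t - z) ^ a = 0 := by linear_combination h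
      rcases mul_eq_zero.1 h3 with h4 | h4
      · exact absurd h4 hc
      · exact sub_eq_zero.1 (pow_eq_zero_iff (by omega) |>.1 h4)
    · rintro rfl
      rw [sub_self, zero_pow (by omega), mul_zero, add_zero]
  have hramz : ram π z = a := by
    unfold ram
    rw [(heval z).2 rfl]
    have h3 : π - C v = C c * (X - C z) ^ a := by
      conv_lhs => rw [hπe]
      ring
    rw [h3, rootMultiplicity_mul (mul_ne_zero (C_ne_zero.2 hc) (pow_ne_zero _ (X_sub_C_ne_zero z))),
      rootMultiplicity_C, rootMultiplicity_X_sub_C_pow, zero_add]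
  have hram1 : ∀ t, t ≠ z → ram π t = 1 := by
    intro t ht
    have h3 := ram_sub_one (f := π) t
    have h4 : (derivative π).rootMultiplicity t = 0 := by
      apply rootMultiplicity_eq_zero
      rw [IsRoot, hπe]
      simp only [derivative_add, derivative_C, derivative_mul, derivative_X_sub_C_pow, zero_mul,
        zero_add, eval_mul, eval_C, eval_pow, eval_sub, eval_X]
      have : (a : K) ≠ 0 := by exact_mod_cast hπ.ne'
      exact mul_ne_zero hc (mul_ne_zero this (pow_ne_zero _ (sub_ne_zero.2 ht)))
    have h5 := ram_pos hπ t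
    omega
  have hPhi : Phi P (m + 1) a v := by
    intro y hy hFy
    obtain ⟨t, ht⟩ := IsAlgClosed.exists_root (π - C y) (by
      rw [degree_eq_natDegree (sub_C_ne hπ y), natDegree_sub_C]
      exact_mod_cast hπ.ne')
    rw [IsRoot, eval_sub, eval_C, sub_eq_zero] at ht
    have htz : t ≠ z := by
      rintro rfl
      rw [(heval t).2 rfl] at ht
      exact hy ht.symm
    have h3 : ram ((it P (m + 1)).comp π) t = ram (it P (m + 1)) y := by
      rw [ram_comp hF0 hπ, ht, hram1 t htz, mul_one]
    rw [H, ram_comp hπ hR0] at h3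
    have h4 : R.eval t = z := by
      rw [← heval, ← eval_comp, ← H, eval_comp, ht, hFy]
    rw [h4, hramz] at h3
    exact ⟨_, h3.symm⟩
  by_cases hv : P.eval v = v
  · left
    apply lift_power hP0 hπ hπe hv
    intro y hy hPy
    exact (hPhi.claim1 hP0 h2 hcop).1 y hy (by rw [hPy, hv])
  · right
    exact hPhi.ct hP h2 hcop hv

/-- The core theorem: if `P^n ∘ π = π ∘ R` with `deg π` prime to `deg P`, then `R = z ∘ A^n` with
`z` of degree one and `A` semi-conjugate to `P`. -/
theorem core {P π R : K[X]} {n : ℕ} (hn : 1 ≤ n) (hP : 2 ≤ P.natDegree)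
    (hπ : 0 < π.natDegree) (hcop : Nat.Coprime π.natDegree P.natDegree)
    (H : (it P n).comp π = π.comp R) :
    ∃ A z μ : K[X], z.natDegree = 1 ∧ 0 < μ.natDegree ∧ μ.comp A = P.comp μ ∧
      R = z.comp (it A n) := by
  have hP0 : 0 < P.natDegree := by omega
  have hFd : 2 ≤ (it P n).natDegree := by
    rw [natDegree_it]
    calc 2 ≤ P.natDegree := hP
      _ = P.natDegree ^ 1 := (pow_one _).symm
      _ ≤ P.natDegree ^ n := Nat.pow_le_pow_right (by omega) hn
  have hc : Nat.Coprime π.natDegree (it P n).natDegree := by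
    rw [natDegree_it]; exact Nat.Coprime.pow_right n hcop
  rcases crit_alternative hπ hFd hc H with h1 | h1
  · obtain ⟨v, z, c, hc0, hπe⟩ := one_crit hπ h1
    rcases core_pow hn hP hπ hcop hc0 hπe H with ⟨A, hA⟩ | ⟨V, hV⟩
    · have h2 := semi_it hA n
      have hAd : A.natDegree = P.natDegree := by
        have h3 : π.natDegree * A.natDegree = P.natDegree * π.natDegree := by
          rw [← natDegree_comp, ← natDegree_comp, hA]
        rw [mul_comm P.natDegree] at h3
        exact Nat.eq_of_mul_eq_mul_left hπ h3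
      have hRd : (it A n).natDegree = R.natDegree := by
        have h3 : π.natDegree * (it A n).natDegree = π.natDegree * R.natDegree := by
          rw [← natDegree_comp, ← natDegree_comp, h2, H]
        exact Nat.eq_of_mul_eq_mul_left hπ h3
      obtain ⟨l, hl1, hl2⟩ := left_cancel hπ (natDegree_it_pos (by omega) n) hRd (h2.trans H)
      exact ⟨A, l, π, hl1, hπ, hA, hl2⟩
    · exact core_ct hn hP hπ H (hV.it hP0 hn)
  · exact core_ct hn hP hπ H h1

end Pool.Agent.W2helper16.IT
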