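import Pool.Agent.W2helper16.IT.Basic

/-!
Ramification indices of polynomials in one variable over an algebraically closed field of
characteristic zero.
-/

set_option autoImplicit false

open Polynomial

namespace Pool.Agent.W2helper16.IT

variable {K : Type*} [Field K]

/-- The ramification index of `f` at `y`: the multiplicity of `y` as a root of `f - f(y)`. -/
noncomputable def ram (f : K[X]) (y : K) : ℕ := (f - C (f.eval y)).rootMultiplicity y

lemma sub_C_ne {f : K[X]} (hf : 0 < f.natDegree) (c : K) : f - C c ≠ 0 := by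
  intro h
  rw [sub_eq_zero] at h
  rw [h, natDegree_C] at hf
  exact lt_irrefl _ hf

lemma natDegree_pos_ne {f : K[X]} (hf : 0 < f.natDegree) : f ≠ 0 := by
  rintro rfl
  simp at hf

lemma rootMultiplicity_pow' (p : K[X]) (n : ℕ) (y : K) :
    (p ^ n).rootMultiplicity y = n * p.rootMultiplicity y := by
  classical
  rw [← count_roots, ← count_roots, roots_pow, Multiset.count_nsmul]

lemma rootMultiplicity_comp' {p g : K[X]} (hp : p ≠ 0) (hg : 0 < g.natDegree) (y : K) :
    (p.comp g).rootMultiplicity y = p.rootMultiplicity (g.eval y) * ram g y := by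
  obtain ⟨q, hq, hnd⟩ := exists_eq_pow_rootMultiplicity_mul_and_not_dvd p hp (g.eval y)
  set m := p.rootMultiplicity (g.eval y) with hm
  have hq0 : q.eval (g.eval y) ≠ 0 := by
    intro h
    exact hnd (dvd_iff_isRoot.2 h)
  have hqc : (q.comp g).rootMultiplicity y = 0 := by
    apply rootMultiplicity_eq_zero
    rw [IsRoot, eval_comp]
    exact hq0
  have hpc : p.comp g = (g - C (g.eval y)) ^ m * q.comp g := by
    conv_lhs => rw [hq]
    rw [mul_comp, pow_comp, sub_comp, X_comp, C_comp]
  have hne : (g - C (g.eval y)) ^ m * q.comp g ≠ 0 := by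
    rw [← hpc]; exact comp_ne_zero hp hg
  rw [hpc, rootMultiplicity_mul hne, hqc, add_zero, rootMultiplicity_pow']
  rfl

lemma ram_pos {f : K[X]} (hf : 0 < f.natDegree) (y : K) : 1 ≤ ram f y := by
  unfold ram
  rw [Nat.one_le_iff_ne_zero, ← Nat.pos_iff_ne_zero, rootMultiplicity_pos (sub_C_ne hf _)]
  simp [IsRoot]

lemma ram_comp {f g : K[X]} (hf : 0 < f.natDegree) (hg : 0 < g.natDegree) (y : K) :
    ram (f.comp g) y = ram f (g.eval y) * ram g y := by
  unfold ram
  rw [eval_comp]
  have h1 : f.comp g - C (f.eval (g.eval y)) = (f - C (f.eval (g.eval y))).comp g := by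
    rw [sub_comp, C_comp]
  rw [h1, rootMultiplicity_comp' (sub_C_ne hf _) hg]
  rfl

/-- The fibre of `f` over `c`. -/
noncomputable def fib (f : K[X]) (c : K) : Finset K :=
  letI := Classical.decEq K
  (f - C c).roots.toFinset

lemma mem_fib {f : K[X]} (hf : 0 < f.natDegree) {c y : K} : y ∈ fib f c ↔ f.eval y = c := by
  classical
  unfold fib
  rw [Multiset.mem_toFinset, mem_roots (sub_C_ne hf _), IsRoot, eval_sub, eval_C, sub_eq_zero]

lemma sum_fib [IsAlgClosed K] {f : K[X]} (hf : 0 < f.natDegree) (c : K) :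
    ∑ y ∈ fib f c, ram f y = f.natDegree := by
  classical
  have h1 : ∑ y ∈ fib f c, ram f y = ∑ y ∈ (f - C c).roots.toFinset, (f - C c).roots.count y := by
    have h2 : fib f c = (f - C c).roots.toFinset := by
      unfold fib; congr
    rw [← h2]
    apply Finset.sum_congr rfl
    intro y hy
    rw [count_roots]
    unfold ram
    rw [(mem_fib hf).1 hy]
  rw [h1, Multiset.toFinset_sum_count_eq, ← (IsAlgClosed.splits (f - C c)).natDegree_eq_card_roots,
    natDegree_sub_C]

lemma sum_rootMultiplicity_le {p : K[X]} (S : Finset K) :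
    ∑ y ∈ S, p.rootMultiplicity y ≤ p.natDegree := by
  classical
  calc ∑ y ∈ S, p.rootMultiplicity y ≤ ∑ y ∈ S ∪ p.roots.toFinset, p.rootMultiplicity y :=
        Finset.sum_le_sum_of_subset Finset.subset_union_left
    _ = ∑ y ∈ S ∪ p.roots.toFinset, p.roots.count y := by simp only [count_roots]
    _ = Multiset.card p.roots := Multiset.sum_count_eq_card (by
        intro a ha
        rw [Finset.mem_union, Multiset.mem_toFinset]
        exact Or.inr ha)
    _ ≤ p.natDegree := card_roots' p

lemma ram_sub_one [CharZero K] {f : K[X]} (y : K) :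
    f.derivative.rootMultiplicity y = ram f y - 1 := by
  have h1 : (f - C (f.eval y)).IsRoot y := by simp [IsRoot]
  have h2 := derivative_rootMultiplicity_of_root h1
  rw [derivative_sub, derivative_C, sub_zero] at h2
  exact h2

lemma sum_ram_sub_one [CharZero K] {f : K[X]} (S : Finset K) :
    ∑ y ∈ S, (ram f y - 1) ≤ f.natDegree - 1 := by
  simp only [← ram_sub_one]
  exact (sum_rootMultiplicity_le S).trans (natDegree_derivative_le f)

/-- The preimage of a finite set. -/
noncomputable def pre (f : K[X]) (W : Finset K) : Finset K :=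
  letI := Classical.decEq K
  W.biUnion (fib f)

lemma mem_pre {f : K[X]} (hf : 0 < f.natDegree) {W : Finset K} {y : K} :
    y ∈ pre f W ↔ f.eval y ∈ W := by
  classical
  unfold pre
  simp only [Finset.mem_biUnion, mem_fib hf]
  constructor
  · rintro ⟨w, hw, rfl⟩; exact hw
  · intro h; exact ⟨_, h, rfl⟩

lemma sum_pre [IsAlgClosed K] {f : K[X]} (hf : 0 < f.natDegree) (W : Finset K) :
    ∑ y ∈ pre f W, ram f y = W.card * f.natDegree := by
  classical
  have h1 : pre f W = W.biUnion (fib f) := by unfold pre; congr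
  rw [h1, Finset.sum_biUnion]
  · rw [Finset.sum_congr rfl fun w _ => sum_fib hf w]
    simp
  · intro v _ w _ hvw
    rw [Function.onFun, Finset.disjoint_left]
    intro y hy1 hy2
    rw [mem_fib hf] at hy1 hy2
    exact hvw (hy1.symm.trans hy2)

/-- Counting points of odd ramification over a finite set. -/
lemma odd_count [IsAlgClosed K] [CharZero K] {f : K[X]} (hf : 0 < f.natDegree) (W S : Finset K)
    (hS : ∀ y, f.eval y ∈ W → Odd (ram f y) → y ∈ S) :
    W.card * f.natDegree + 2 ≤ 2 * f.natDegree + S.card := by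
  classical
  have h1 := sum_pre hf W
  have h2 := sum_ram_sub_one (f := f) (pre f W)
  have h3 : ∑ y ∈ pre f W, ram f y ≤ ∑ y ∈ pre f W, (2 * (ram f y - 1) + if y ∈ S then 1 else 0) := by
    apply Finset.sum_le_sum
    intro y hy
    have h4 := ram_pos hf y
    split_ifs with h5
    · omega
    · have h6 : ¬ Odd (ram f y) := fun h => h5 (hS y ((mem_pre hf).1 hy) h)
      rw [Nat.not_odd_iff_even] at h6
      obtain ⟨k, hk⟩ := h6
      omega
  rw [Finset.sum_add_distrib, ← Finset.mul_sum, h1] at h3
  have h7 : ∑ y ∈ pre f W, (if y ∈ S then 1 else 0) ≤ S.card := by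
    rw [Finset.sum_ite_mem, Finset.sum_const, smul_eq_mul, mul_one]
    exact Finset.card_le_card Finset.inter_subset_right
  omega

end Pool.Agent.W2helper16.IT
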